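import Mathlib

/-!
# The tropical family `x ↦ F x + s`
-/

set_option autoImplicit false

open Filter Topology MeasureTheory

set_option linter.unusedSectionVars false

namespace Pool.Agent.TH639.UC

variable {ι : Type*} [Fintype ι] (k : ℕ) (ρ : ι → ℝ)

/-- the tropical polynomial with the root `-∞` of multiplicity `k` and the roots `ρ i` -/
noncomputable def F (x : ℝ) : ℝ := k * x + ∑ i, max x (ρ i)

/-- the right slope -/
noncomputable def kp (x : ℝ) : ℝ := k + ∑ i, (if ρ i ≤ x then (1 : ℝ) else 0)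

/-- the left slope -/
noncomputable def km (x : ℝ) : ℝ := k + ∑ i, (if ρ i < x then (1 : ℝ) else 0)

/-- the region where the slope is at least one -/
def Dom (x : ℝ) : Prop := 1 ≤ k ∨ ∃ i, ρ i ≤ x

/-- the orbit which starts at `s + q` -/
noncomputable def Y (q s : ℝ) : ℕ → ℝ
  | 0 => s + q
  | m + 1 => F k ρ (Y q s m) + s

/-- the gaps of the orbit -/
noncomputable def g (q s : ℝ) (m : ℕ) : ℝ := Y k ρ q s (m + 1) - Y k ρ q s m

variable {k ρ}

lemma one_le_kp {x : ℝ} (h : Dom k ρ x) : 1 ≤ kp k ρ x := by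
  have h0 : ∀ i ∈ (Finset.univ : Finset ι), (0 : ℝ) ≤ (if ρ i ≤ x then (1 : ℝ) else 0) := by
    intro i _; split_ifs <;> norm_num
  unfold kp
  rcases h with h | ⟨i, hi⟩
  · have h1 : (1 : ℝ) ≤ k := by exact_mod_cast h
    have := Finset.sum_nonneg h0
    linarith
  · have h1 := Finset.single_le_sum h0 (Finset.mem_univ i)
    rw [if_pos hi] at h1
    have : (0 : ℝ) ≤ k := Nat.cast_nonneg k
    linarith

lemma Dom.mono {x y : ℝ} (h : Dom k ρ x) (hxy : x ≤ y) : Dom k ρ y := by
  rcases h with h | ⟨i, hi⟩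
  · exact Or.inl h
  · exact Or.inr ⟨i, hi.trans hxy⟩

lemma km_le_kp (x : ℝ) : km k ρ x ≤ kp k ρ x := by
  unfold km kp
  gcongr with i
  split_ifs with h1 h2 h2
  · exact le_rfl
  · exact absurd h1.le h2
  · norm_num
  · exact le_rfl

lemma kp_le_NN (x : ℝ) : kp k ρ x ≤ k + Fintype.card ι := by
  unfold kp
  have : ∑ i, (if ρ i ≤ x then (1 : ℝ) else 0) ≤ ∑ _i : ι, (1 : ℝ) := by
    apply Finset.sum_le_sum
    intro i _; split_ifs <;> norm_num
  rw [Finset.sum_const, Finset.card_univ, nsmul_eq_mul, mul_one] at this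
  linarith

lemma F_lower {x y : ℝ} (h : x ≤ y) : kp k ρ x * (y - x) ≤ F k ρ y - F k ρ x := by
  unfold kp F
  rw [add_mul, Finset.sum_mul]
  have h1 : ∑ i, (if ρ i ≤ x then (1 : ℝ) else 0) * (y - x) ≤
      ∑ i, max y (ρ i) - ∑ i, max x (ρ i) := by
    rw [← Finset.sum_sub_distrib]
    apply Finset.sum_le_sum
    intro i _
    split_ifs with hi
    · rw [max_eq_left hi, max_eq_left (hi.trans h)]; linarith
    · rw [zero_mul, sub_nonneg]
      exact max_le_max h le_rfl
  linarith

lemma F_upper {x y : ℝ} (h : x ≤ y) : F k ρ y - F k ρ x ≤ km k ρ y * (y - x) := by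
  unfold km F
  rw [add_mul, Finset.sum_mul]
  have h1 : ∑ i, max y (ρ i) - ∑ i, max x (ρ i) ≤
      ∑ i, (if ρ i < y then (1 : ℝ) else 0) * (y - x) := by
    rw [← Finset.sum_sub_distrib]
    apply Finset.sum_le_sum
    intro i _
    split_ifs with hi
    · rw [max_eq_left hi.le, one_mul]
      have := le_max_left x (ρ i)
      linarith
    · rw [not_lt] at hi
      rw [max_eq_right hi, max_eq_right (h.trans hi)]; simp
  linarith

lemma F_mono {x y : ℝ} (h : x ≤ y) : F k ρ x ≤ F k ρ y := by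
  have h1 := F_lower (k := k) (ρ := ρ) h
  have h2 : 0 ≤ kp k ρ x * (y - x) := by
    apply mul_nonneg _ (by linarith)
    unfold kp
    have h0 : ∀ i ∈ (Finset.univ : Finset ι), (0 : ℝ) ≤ (if ρ i ≤ x then (1 : ℝ) else 0) := by
      intro i _; split_ifs <;> norm_num
    have := Finset.sum_nonneg h0
    positivity
  linarith

lemma F_upperN {x y : ℝ} (h : x ≤ y) :
    F k ρ y - F k ρ x ≤ ((k : ℝ) + Fintype.card ι) * (y - x) :=
  (F_upper h).trans (mul_le_mul_of_nonneg_right ((km_le_kp y).trans (kp_le_NN y)) (by linarith))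

lemma F_step {x y : ℝ} (hd : Dom k ρ x) (h : x ≤ y) : y - x ≤ F k ρ y - F k ρ x := by
  have h1 := F_lower (k := k) (ρ := ρ) h
  have h2 := one_le_kp hd
  nlinarith

lemma continuous_F : Continuous (F k ρ) := by
  unfold F
  fun_prop

lemma convex_F : ConvexOn ℝ Set.univ (F k ρ) := by
  unfold F
  apply ConvexOn.add
  · exact (convexOn_id convex_univ).smul (Nat.cast_nonneg k)
  · have : ∀ S : Finset ι, ConvexOn ℝ Set.univ (fun x => ∑ i ∈ S, max x (ρ i)) := by
      classical
      intro S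
      induction S using Finset.induction_on with
      | empty => simpa using convexOn_const (0 : ℝ) convex_univ
      | insert i S hi ih =>
        simp only [Finset.sum_insert hi]
        exact ((convexOn_id convex_univ).sup (convexOn_const (ρ i) convex_univ)).add ih
    exact this _

lemma continuous_Y (q : ℝ) (m : ℕ) : Continuous (fun s => Y k ρ q s m) := by
  induction m with
  | zero => simp only [Y]; fun_prop
  | succ m ih => simp only [Y]; exact (continuous_F.comp ih).add continuous_id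

lemma continuous_g (q : ℝ) (m : ℕ) : Continuous (fun s => g k ρ q s m) :=
  (continuous_Y q (m + 1)).sub (continuous_Y q m)

lemma convex_Y (q : ℝ) (m : ℕ) : ConvexOn ℝ Set.univ (fun s => Y k ρ q s m) := by
  induction m with
  | zero =>
    simp only [Y]
    exact (convexOn_id convex_univ).add (convexOn_const q convex_univ)
  | succ m ih =>
    simp only [Y]
    apply ConvexOn.add _ (convexOn_id convex_univ)
    refine ⟨convex_univ, fun x _ y _ a b ha hb hab => ?_⟩
    have h1 := ih.2 (Set.mem_univ x) (Set.mem_univ y) ha hb hab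
    have h2 := (convex_F (k := k) (ρ := ρ)).2 (Set.mem_univ (Y k ρ q x m))
      (Set.mem_univ (Y k ρ q y m)) ha hb hab
    exact (F_mono h1).trans h2

/-- the orbits are expanding in the parameter -/
lemma Y_expand (q : ℝ) {s s' : ℝ} (h : s ≤ s') (m : ℕ) :
    s' - s ≤ Y k ρ q s' m - Y k ρ q s m := by
  induction m with
  | zero => simp only [Y]; linarith
  | succ m ih =>
    simp only [Y]
    have := F_mono (k := k) (ρ := ρ) (show Y k ρ q s m ≤ Y k ρ q s' m by linarith)
    linarith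

/-- the ray of the parameters with a growing orbit -/
def Ray (k : ℕ) (ρ : ι → ℝ) (q s : ℝ) : Prop := Dom k ρ (s + q) ∧ 0 ≤ g k ρ q s 0

lemma g_succ (q s : ℝ) (m : ℕ) :
    g k ρ q s (m + 1) = F k ρ (Y k ρ q s (m + 1)) - F k ρ (Y k ρ q s m) := by
  unfold g
  have e1 : Y k ρ q s (m + 1 + 1) = F k ρ (Y k ρ q s (m + 1)) + s := rfl
  have e2 : Y k ρ q s (m + 1) = F k ρ (Y k ρ q s m) + s := rfl
  rw [e1]
  nth_rewrite 2 [e2]
  ring

lemma g_eq (q s : ℝ) (m : ℕ) :
    g k ρ q s m = F k ρ (Y k ρ q s m) + s - Y k ρ q s m := rfl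

lemma ray_all {q s : ℝ} (h : Ray k ρ q s) (m : ℕ) :
    Dom k ρ (Y k ρ q s m) ∧ g k ρ q s 0 ≤ g k ρ q s m := by
  induction m with
  | zero => exact ⟨h.1, le_rfl⟩
  | succ m ih =>
    have h0 : 0 ≤ g k ρ q s m := h.2.trans ih.2
    have h1 : Y k ρ q s m ≤ Y k ρ q s (m + 1) := by
      have : g k ρ q s m = Y k ρ q s (m + 1) - Y k ρ q s m := rfl
      linarith
    refine ⟨ih.1.mono h1, ?_⟩
    rw [g_succ]
    have h2 := F_step ih.1 h1
    have : g k ρ q s m = Y k ρ q s (m + 1) - Y k ρ q s m := rfl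
    linarith [ih.2]

lemma g_mono {q s : ℝ} (h : Ray k ρ q s) (m : ℕ) : g k ρ q s m ≤ g k ρ q s (m + 1) := by
  have h1 := ray_all h m
  have h2 : g k ρ q s m = Y k ρ q s (m + 1) - Y k ρ q s m := rfl
  have h3 := F_step h1.1 (show Y k ρ q s m ≤ Y k ρ q s (m + 1) by linarith [h.2])
  rw [g_succ]
  linarith

lemma g_succ_le {q s : ℝ} (h : Ray k ρ q s) (m : ℕ) :
    g k ρ q s (m + 1) ≤ ((k : ℝ) + Fintype.card ι) * g k ρ q s m := by
  have h1 := ray_all h m
  have h2 : g k ρ q s m = Y k ρ q s (m + 1) - Y k ρ q s m := rfl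
  rw [g_succ, h2]
  exact F_upperN (by linarith [h.2])

/-- the gaps as functions of the parameter -/
lemma g_param {q s s' : ℝ} (h : Ray k ρ q s) (hs : s ≤ s') (m : ℕ) :
    s' - s ≤ g k ρ q s' m - g k ρ q s m ∧
      g k ρ q s' m - g k ρ q s m ≤
        ((k : ℝ) + Fintype.card ι) * (Y k ρ q s' m - Y k ρ q s m) := by
  have h1 := ray_all h m
  have h2 := Y_expand (k := k) (ρ := ρ) q hs m
  have hle : Y k ρ q s m ≤ Y k ρ q s' m := by linarith
  have h3 := F_step h1.1 hle
  have h4 := F_upperN (k := k) (ρ := ρ) hle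
  rw [g_eq, g_eq]
  constructor <;> linarith

lemma Ray.mono {q s s' : ℝ} (h : Ray k ρ q s) (hs : s ≤ s') : Ray k ρ q s' := by
  refine ⟨h.1.mono (by linarith), ?_⟩
  have := (g_param h hs 0).1
  linarith [h.2]

/-- the speed of the orbit in the parameter is at least comparable with the growth of the gaps -/
lemma speed {q s s' : ℝ} (h : Ray k ρ q s) (hs : s ≤ s') (m : ℕ) :
    (s' - s) * g k ρ q s m ≤
      (Y k ρ q s' m - Y k ρ q s m) * g k ρ q s 0 * kp k ρ (Y k ρ q s m) := by
  have hc : 0 ≤ s' - s := by linarith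
  have key : ∀ m, ∃ c : ℝ, 0 ≤ c ∧ c ≤ kp k ρ (Y k ρ q s m) ∧
      (s' - s) * g k ρ q s m ≤ (Y k ρ q s' m - Y k ρ q s m) * g k ρ q s 0 * c := by
    intro m
    induction m with
    | zero =>
      refine ⟨1, zero_le_one, one_le_kp h.1, ?_⟩
      simp only [Y]
      apply le_of_eq
      ring
    | succ m ih =>
      obtain ⟨c, hc0, hc1, hc2⟩ := ih
      have h1 := ray_all h m
      have h2 := Y_expand (k := k) (ρ := ρ) q hs m
      have hle : Y k ρ q s m ≤ Y k ρ q s' m := by linarith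
      have h3 : Y k ρ q s m ≤ Y k ρ q s (m + 1) := by
        have : g k ρ q s m = Y k ρ q s (m + 1) - Y k ρ q s m := rfl
        linarith [h.2]
      have hkm : 0 ≤ km k ρ (Y k ρ q s (m + 1)) := by
        unfold km
        have h0 : ∀ i ∈ (Finset.univ : Finset ι),
            (0 : ℝ) ≤ (if ρ i < Y k ρ q s (m + 1) then (1 : ℝ) else 0) := by
          intro i _; split_ifs <;> norm_num
        have := Finset.sum_nonneg h0
        positivity
      refine ⟨km k ρ (Y k ρ q s (m + 1)), hkm, km_le_kp _, ?_⟩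
      have h4 : g k ρ q s (m + 1) ≤ km k ρ (Y k ρ q s (m + 1)) * g k ρ q s m := by
        rw [g_succ]; exact F_upper h3
      have h5 : kp k ρ (Y k ρ q s m) * (Y k ρ q s' m - Y k ρ q s m) ≤
          Y k ρ q s' (m + 1) - Y k ρ q s (m + 1) := by
        have := F_lower (k := k) (ρ := ρ) hle
        simp only [Y]
        linarith
      have h6 : (Y k ρ q s' m - Y k ρ q s m) * c ≤ Y k ρ q s' (m + 1) - Y k ρ q s (m + 1) := by
        refine le_trans ?_ h5
        rw [mul_comm]
        exact mul_le_mul_of_nonneg_right hc1 (by linarith)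
      calc (s' - s) * g k ρ q s (m + 1)
          ≤ (s' - s) * (km k ρ (Y k ρ q s (m + 1)) * g k ρ q s m) :=
            mul_le_mul_of_nonneg_left h4 hc
        _ = km k ρ (Y k ρ q s (m + 1)) * ((s' - s) * g k ρ q s m) := by ring
        _ ≤ km k ρ (Y k ρ q s (m + 1)) * ((Y k ρ q s' m - Y k ρ q s m) * g k ρ q s 0 * c) :=
            mul_le_mul_of_nonneg_left hc2 hkm
        _ = km k ρ (Y k ρ q s (m + 1)) * g k ρ q s 0 * ((Y k ρ q s' m - Y k ρ q s m) * c) := by
            ring
        _ ≤ km k ρ (Y k ρ q s (m + 1)) * g k ρ q s 0 *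
              (Y k ρ q s' (m + 1) - Y k ρ q s (m + 1)) :=
            mul_le_mul_of_nonneg_left h6 (mul_nonneg hkm h.2)
        _ = _ := by ring
  obtain ⟨c, hc0, hc1, hc2⟩ := key m
  refine hc2.trans ?_
  apply mul_le_mul_of_nonneg_left hc1
  apply mul_nonneg _ h.2
  have := Y_expand (k := k) (ρ := ρ) q hs m
  linarith

end Pool.Agent.TH639.UC
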