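import Mathlib
import Pool.Agent.TH639.UC.Trop

/-!
# The measure of the parameters whose orbit comes close to a given point
-/

set_option autoImplicit false

open Filter Topology MeasureTheory

set_option linter.unusedSectionVars false

namespace Pool.Agent.TH639.UC

variable {ι : Type*} [Fintype ι] {k : ℕ} {ρ : ι → ℝ}

/-- the orbit comes relatively close to `r` -/
def Hit (k : ℕ) (ρ : ι → ℝ) (θ q r s : ℝ) : Prop :=
  ∃ m, |Y k ρ q s m - r| ≤ θ * (g k ρ q s m / g k ρ q s 0)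

lemma Y_mono {q s : ℝ} (h : Ray k ρ q s) {m m' : ℕ} (hm : m ≤ m') :
    Y k ρ q s m ≤ Y k ρ q s m' := by
  induction m' with
  | zero => rw [Nat.le_zero.1 hm]
  | succ n ih =>
    rcases Nat.lt_or_ge m (n + 1) with h1 | h1
    · have h2 := ray_all h n
      have h3 : g k ρ q s n = Y k ρ q s (n + 1) - Y k ρ q s n := rfl
      have := ih (by omega)
      linarith [h.2]
    · rw [show m = n + 1 by omega]

lemma one_le_N {q s : ℝ} (h : Ray k ρ q s) : (1 : ℝ) ≤ (k : ℝ) + Fintype.card ι :=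
  (one_le_kp h.1).trans (kp_le_NN _)

/-- at most one point of the orbit is close to `r` -/
lemma disj {q s r : ℝ} (h : Ray k ρ q s) (h0 : 0 < g k ρ q s 0) {δ : ℝ}
    (hδ : δ * (2 * ((k : ℝ) + Fintype.card ι + 1)) = 1) {m m' : ℕ} (hm : m < m')
    (h1 : |Y k ρ q s m - r| ≤ δ * g k ρ q s m) (h2 : |Y k ρ q s m' - r| ≤ δ * g k ρ q s m') :
    False := by
  have hN := one_le_N h
  set N : ℝ := (k : ℝ) + Fintype.card ι with hNd
  have hδ0 : 0 < δ := by
    by_contra hcon
    push Not at hcon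
    have : δ * (2 * (N + 1)) ≤ 0 := mul_nonpos_of_nonpos_of_nonneg hcon (by linarith)
    linarith
  have h3 : g k ρ q s m ≤ Y k ρ q s m' - Y k ρ q s m := by
    have h4 : Y k ρ q s (m + 1) ≤ Y k ρ q s m' := Y_mono h (by omega)
    have h5 : g k ρ q s m = Y k ρ q s (m + 1) - Y k ρ q s m := rfl
    linarith
  have h4 : g k ρ q s m' ≤ N * (Y k ρ q s m' - Y k ρ q s m) := by
    obtain ⟨n, rfl⟩ : ∃ n, m' = n + 1 := ⟨m' - 1, by omega⟩
    have h5 := g_succ_le h n
    have h6 : g k ρ q s n = Y k ρ q s (n + 1) - Y k ρ q s n := rfl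
    have h7 : Y k ρ q s m ≤ Y k ρ q s n := Y_mono h (by omega)
    refine h5.trans ?_
    rw [h6]
    apply mul_le_mul_of_nonneg_left _ (by linarith)
    linarith
  have h5 := (ray_all h m).2
  have h6 : Y k ρ q s m' - Y k ρ q s m ≤ δ * (g k ρ q s m + g k ρ q s m') := by
    have h7 := (abs_le.1 h1).1
    have h8 := (abs_le.1 h2).2
    linarith
  set D := Y k ρ q s m' - Y k ρ q s m with hD
  have h7 : δ * (g k ρ q s m + g k ρ q s m') ≤ δ * (D + N * D) := by
    apply mul_le_mul_of_nonneg_left _ hδ0.le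
    linarith
  have h8 : δ * (D + N * D) = D / 2 := by
    have : δ * (D + N * D) = (δ * (2 * (N + 1))) * (D / 2) := by ring
    rw [this, hδ, one_mul]
  linarith

section block

variable {θ q a b r : ℝ}

/-- comparison of the gaps -/
lemma gap_comp {N δ δ' : ℝ} (hN : N = (k : ℝ) + Fintype.card ι) {l r' : ℝ}
    (hl : Ray k ρ q l) (hlr : l ≤ r') (h1N : 1 ≤ N) (hδ' : δ' * (2 * (N + 1)) = 1) (hδ0 : 0 < δ)
    (hδ : δ ≤ δ' / 4) {m : ℕ}
    (h1 : r ≤ Y k ρ q l m + δ' * g k ρ q l m) (h2 : Y k ρ q r' m - δ * g k ρ q r' m ≤ r) :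
    g k ρ q r' m ≤ 2 * g k ρ q l m := by
  have h3 := (g_param hl hlr m).2
  rw [← hN] at h3
  have hg0 : 0 ≤ g k ρ q l m := hl.2.trans (ray_all hl m).2
  have hg0' : 0 ≤ g k ρ q r' m := (hl.mono hlr).2.trans (ray_all (hl.mono hlr) m).2
  have h4 : N * (Y k ρ q r' m - Y k ρ q l m) ≤ N * (δ * g k ρ q r' m + δ' * g k ρ q l m) :=
    mul_le_mul_of_nonneg_left (by linarith) (by linarith)
  have h5 : N * δ' ≤ 1 / 2 := by nlinarith
  have h6 : N * δ ≤ 1 / 8 := by nlinarith
  nlinarith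

/-- a hitting interval is short compared with the preceding approach interval -/
lemma hit_case1 {N δ δ' : ℝ} (hN : N = (k : ℝ) + Fintype.card ι) (hR : Ray k ρ q a)
    (hJ : 0 < g k ρ q a 0)
    (h1N : 1 ≤ N) (hδ' : δ' * (2 * (N + 1)) = 1) (hδ0 : 0 < δ) (hδ : δ ≤ δ' / 4) {m : ℕ}
    (hH : Y k ρ q a m + δ' * g k ρ q a m < r) {l r' : ℝ} (hal : a ≤ l) (hlr : l ≤ r')
    (hrb : r' ≤ b)
    (h1 : |Y k ρ q l m - r| ≤ δ * g k ρ q l m) (h2 : |Y k ρ q r' m - r| ≤ δ * g k ρ q r' m) :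
    ENNReal.ofReal (r' - l) ≤ ENNReal.ofReal (16 * (N + 1) * δ) *
      volume {s : ℝ | (a ≤ s ∧ s ≤ b) ∧ r ≤ Y k ρ q s m + δ' * g k ρ q s m ∧
        Y k ρ q s m + δ * g k ρ q s m < r} := by
  have hδ'0 : 0 < δ' := by linarith
  have hcA : Continuous (fun s => Y k ρ q s m + δ' * g k ρ q s m) :=
    (continuous_Y q m).add (continuous_const.mul (continuous_g q m))
  have hcB : Continuous (fun s => Y k ρ q s m + δ * g k ρ q s m) :=
    (continuous_Y q m).add (continuous_const.mul (continuous_g q m))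
  have hgl : 0 ≤ g k ρ q l m := (hR.mono hal).2.trans (ray_all (hR.mono hal) m).2
  have h1' := (abs_le.1 h1).1
  have h2' := (abs_le.1 h2).2
  have hle : δ * g k ρ q l m ≤ δ' * g k ρ q l m :=
    mul_le_mul_of_nonneg_right (by linarith) hgl
  obtain ⟨l', hl', hl'e⟩ : ∃ x ∈ Set.Icc a l, Y k ρ q x m + δ' * g k ρ q x m = r :=
    intermediate_value_Icc hal hcA.continuousOn ⟨hH.le, by linarith⟩
  have hRl' : Ray k ρ q l' := hR.mono hl'.1
  have hgl'0 : 0 < g k ρ q l' m := by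
    have e1 := (ray_all hRl' m).2
    have e2 := (g_param hR hl'.1 0).1
    linarith [hl'.1]
  obtain ⟨l₀, hl₀, hl₀e⟩ : ∃ x ∈ Set.Icc l' l, Y k ρ q x m + δ * g k ρ q x m = r := by
    refine intermediate_value_Icc hl'.2 hcB.continuousOn ⟨?_, by linarith⟩
    have : δ * g k ρ q l' m ≤ δ' * g k ρ q l' m :=
      mul_le_mul_of_nonneg_right (by linarith) hgl'0.le
    linarith
  have hRl₀ : Ray k ρ q l₀ := hRl'.mono hl₀.1
  -- the approach interval
  have hL : Set.Ico l' l₀ ⊆ {s : ℝ | (a ≤ s ∧ s ≤ b) ∧ r ≤ Y k ρ q s m + δ' * g k ρ q s m ∧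
        Y k ρ q s m + δ * g k ρ q s m < r} := by
    rintro s ⟨hs1, hs2⟩
    have hRs := hRl'.mono hs1
    refine ⟨⟨hl'.1.trans hs1, by linarith [hl₀.2]⟩, ?_, ?_⟩
    · have e1 := Y_expand (k := k) (ρ := ρ) q hs1 m
      have e2 := (g_param hRl' hs1 m).1
      have e3 : δ' * g k ρ q l' m ≤ δ' * g k ρ q s m :=
        mul_le_mul_of_nonneg_left (by linarith) hδ'0.le
      linarith
    · have e1 := Y_expand (k := k) (ρ := ρ) q hs2.le m
      have e2 := (g_param hRs hs2.le m).1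
      have e3 : δ * g k ρ q s m ≤ δ * g k ρ q l₀ m :=
        mul_le_mul_of_nonneg_left (by linarith) hδ0.le
      linarith
  have hvol : ENNReal.ofReal (l₀ - l') ≤ volume {s : ℝ | (a ≤ s ∧ s ≤ b) ∧
      r ≤ Y k ρ q s m + δ' * g k ρ q s m ∧ Y k ρ q s m + δ * g k ρ q s m < r} := by
    rw [← Real.volume_Ico]
    exact measure_mono hL
  -- the comparison
  have hcomp : g k ρ q r' m ≤ 2 * g k ρ q l' m :=
    gap_comp hN hRl' (hl'.2.trans hlr) h1N hδ' hδ0 hδ hl'e.ge (by linarith)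
  have hl₀r : l₀ ≤ r' := hl₀.2.trans hlr
  have hg1 : g k ρ q l₀ m ≤ g k ρ q r' m := by
    have := (g_param hRl₀ hl₀r m).1
    linarith
  have hY1 : Y k ρ q r' m - Y k ρ q l₀ m ≤ 4 * δ * g k ρ q l' m := by
    have e1 : Y k ρ q r' m - Y k ρ q l₀ m ≤ δ * g k ρ q r' m + δ * g k ρ q l₀ m := by linarith
    nlinarith
  have hY2 : δ' / 2 * g k ρ q l' m ≤ Y k ρ q l₀ m - Y k ρ q l' m := by
    have e1 : Y k ρ q l₀ m - Y k ρ q l' m = δ' * g k ρ q l' m - δ * g k ρ q l₀ m := by linarith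
    rw [e1]
    nlinarith
  have hconv : (r' - l₀) * (Y k ρ q l₀ m - Y k ρ q l' m) ≤
      (l₀ - l') * (Y k ρ q r' m - Y k ρ q l₀ m) := by
    rcases eq_or_lt_of_le hl₀.1 with h | h
    · rw [← h]; simp
    rcases eq_or_lt_of_le hl₀r with h' | h'
    · rw [← h']; simp
    have := (convex_Y (k := k) (ρ := ρ) q m).slope_mono_adjacent (Set.mem_univ l')
      (Set.mem_univ r') h h'
    rw [div_le_div_iff₀ (by linarith) (by linarith)] at this
    linarith
  have hfin : r' - l₀ ≤ 16 * (N + 1) * δ * (l₀ - l') := by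
    have e0 : 0 ≤ r' - l₀ := by linarith
    have e0' : 0 ≤ l₀ - l' := by linarith [hl₀.1]
    have e1 : (r' - l₀) * (δ' / 2 * g k ρ q l' m) ≤ (l₀ - l') * (4 * δ * g k ρ q l' m) :=
      (mul_le_mul_of_nonneg_left hY2 e0).trans (hconv.trans (mul_le_mul_of_nonneg_left hY1 e0'))
    have e2 : (r' - l₀) * (δ' / 2) ≤ (l₀ - l') * (4 * δ) := by
      have : (r' - l₀) * (δ' / 2) * g k ρ q l' m ≤ (l₀ - l') * (4 * δ) * g k ρ q l' m := by
        linarith
      exact le_of_mul_le_mul_right this hgl'0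
    have e3 : r' - l₀ = (r' - l₀) * (δ' / 2) * (4 * (N + 1)) := by
      have : (r' - l₀) * (δ' / 2) * (4 * (N + 1)) = (r' - l₀) * (δ' * (2 * (N + 1))) := by ring
      rw [this, hδ', mul_one]
    rw [e3]
    have : (r' - l₀) * (δ' / 2) * (4 * (N + 1)) ≤ (l₀ - l') * (4 * δ) * (4 * (N + 1)) :=
      mul_le_mul_of_nonneg_right e2 (by linarith)
    linarith
  calc ENNReal.ofReal (r' - l) ≤ ENNReal.ofReal (16 * (N + 1) * δ * (l₀ - l')) :=
        ENNReal.ofReal_le_ofReal (by linarith [hl₀.2])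
    _ = ENNReal.ofReal (16 * (N + 1) * δ) * ENNReal.ofReal (l₀ - l') :=
        ENNReal.ofReal_mul (by positivity)
    _ ≤ _ := by gcongr

/-- an absolute bound for the length of a hitting interval -/
lemma hit_case2 {N δ δ' : ℝ} (hN : N = (k : ℝ) + Fintype.card ι) (hR : Ray k ρ q a)
    (hJ : 0 < g k ρ q a 0)
    (h1N : 1 ≤ N) (hδ' : δ' * (2 * (N + 1)) = 1) (hδ0 : 0 < δ) (hδ : δ ≤ δ' / 4) {m : ℕ}
    {l r' : ℝ} (hal : a ≤ l) (hlr : l ≤ r') (hrb : r' ≤ a + g k ρ q a 0)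
    (h1 : |Y k ρ q l m - r| ≤ δ * g k ρ q l m) (h2 : |Y k ρ q r' m - r| ≤ δ * g k ρ q r' m) :
    r' - l ≤ 3 * (δ * g k ρ q a 0) * N * (N + 1) := by
  have hRl := hR.mono hal
  have hgl : 0 < g k ρ q l m := by
    have e1 := (ray_all hRl m).2
    have e2 := (g_param hR hal 0).1
    linarith
  have h1' := (abs_le.1 h1).1
  have h2' := (abs_le.1 h2).2
  have hcomp : g k ρ q r' m ≤ 2 * g k ρ q l m := by
    refine gap_comp hN hRl hlr h1N hδ' hδ0 hδ (r := r) ?_ (by linarith)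
    have : δ * g k ρ q l m ≤ δ' * g k ρ q l m := mul_le_mul_of_nonneg_right (by linarith) hgl.le
    linarith
  have h3 := speed hRl hlr m
  have hY0 : 0 ≤ Y k ρ q r' m - Y k ρ q l m := by
    have := Y_expand (k := k) (ρ := ρ) q hlr m
    linarith
  have hkp := kp_le_NN (k := k) (ρ := ρ) (Y k ρ q l m)
  rw [← hN] at hkp
  have hYle : Y k ρ q r' m - Y k ρ q l m ≤ 3 * δ * g k ρ q l m := by nlinarith
  have hg0 : g k ρ q l 0 ≤ (N + 1) * g k ρ q a 0 := by
    have e1 := (g_param hR hal 0).2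
    rw [← hN] at e1
    simp only [Y] at e1
    nlinarith
  have hg00 : 0 ≤ g k ρ q l 0 := hRl.2
  have h4 : (r' - l) * g k ρ q l m ≤ (3 * δ * g k ρ q l m) * ((N + 1) * g k ρ q a 0) * N := by
    refine h3.trans ?_
    have e1 : (Y k ρ q r' m - Y k ρ q l m) * g k ρ q l 0 ≤
        (3 * δ * g k ρ q l m) * ((N + 1) * g k ρ q a 0) :=
      mul_le_mul hYle hg0 hg00 (by positivity)
    have e2 : 0 ≤ (Y k ρ q r' m - Y k ρ q l m) * g k ρ q l 0 := mul_nonneg hY0 hg00
    have e3 : 0 ≤ (3 * δ * g k ρ q l m) * ((N + 1) * g k ρ q a 0) := e2.trans e1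
    exact (mul_le_mul_of_nonneg_left hkp e2).trans (mul_le_mul_of_nonneg_right e1 (by linarith))
  have h5 : (3 * δ * g k ρ q l m) * ((N + 1) * g k ρ q a 0) * N =
      (3 * (δ * g k ρ q a 0) * N * (N + 1)) * g k ρ q l m := by ring
  rw [h5] at h4
  exact le_of_mul_le_mul_right h4 hgl

/-- the measure of the hitting parameters in a block -/
theorem block (hθ : 0 < θ) (hR : Ray k ρ q a)
    (hG : 8 * ((k : ℝ) + Fintype.card ι + 1) * θ ≤ g k ρ q a 0) (hb : b ≤ a + g k ρ q a 0) :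
    volume {s : ℝ | a ≤ s ∧ s ≤ b ∧ Hit k ρ θ q r s} ≤
      ENNReal.ofReal (16 * ((k : ℝ) + Fintype.card ι + 1) * θ +
        3 * θ * ((k : ℝ) + Fintype.card ι) * ((k : ℝ) + Fintype.card ι + 1)) := by
  classical
  have h1N := one_le_N hR
  obtain ⟨N, hN⟩ : ∃ N : ℝ, N = (k : ℝ) + Fintype.card ι := ⟨_, rfl⟩
  rw [← hN] at hG h1N ⊢
  obtain ⟨J, hJd⟩ : ∃ J : ℝ, J = g k ρ q a 0 := ⟨_, rfl⟩
  have hJ : 0 < J := by
    rw [hJd]
    refine lt_of_lt_of_le ?_ hG
    positivity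
  have hJ' : 0 < g k ρ q a 0 := by rw [← hJd]; exact hJ
  obtain ⟨δ', hδ'⟩ : ∃ δ' : ℝ, δ' * (2 * (N + 1)) = 1 :=
    ⟨(2 * (N + 1))⁻¹, inv_mul_cancel₀ (by positivity)⟩
  have hδ'0 : 0 < δ' := by
    by_contra hcon
    push Not at hcon
    have : δ' * (2 * (N + 1)) ≤ 0 := mul_nonpos_of_nonpos_of_nonneg hcon (by linarith)
    linarith
  obtain ⟨δ, hδd⟩ : ∃ δ : ℝ, δ = θ / J := ⟨_, rfl⟩
  have hδ0 : 0 < δ := by rw [hδd]; positivity
  have hδJ : δ * J = θ := by rw [hδd, div_mul_cancel₀ _ hJ.ne']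
  have hδ : δ ≤ δ' / 4 := by
    have e1 : 8 * (N + 1) * (δ * J) ≤ J := by rw [hδJ, hJd]; exact hG
    have e2 : (8 * (N + 1) * δ) * J ≤ 1 * J := by linarith
    have e3 : 8 * (N + 1) * δ ≤ 1 := le_of_mul_le_mul_right e2 hJ
    have e4 : δ * (8 * (N + 1)) ≤ δ' / 4 * (8 * (N + 1)) := by
      have : δ' / 4 * (8 * (N + 1)) = δ' * (2 * (N + 1)) := by ring
      rw [this, hδ']; linarith
    exact le_of_mul_le_mul_right e4 (by positivity)
  set E : ℕ → Set ℝ := fun m => {s : ℝ | (a ≤ s ∧ s ≤ b) ∧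
    |Y k ρ q s m - r| ≤ δ * g k ρ q s m} with hE
  set L : ℕ → Set ℝ := fun m => {s : ℝ | (a ≤ s ∧ s ≤ b) ∧ r ≤ Y k ρ q s m + δ' * g k ρ q s m ∧
        Y k ρ q s m + δ * g k ρ q s m < r} with hL
  have hsub : {s : ℝ | a ≤ s ∧ s ≤ b ∧ Hit k ρ θ q r s} ⊆ ⋃ m, E m := by
    rintro s ⟨hs1, hs2, m, hm⟩
    rw [Set.mem_iUnion]
    refine ⟨m, ⟨hs1, hs2⟩, hm.trans ?_⟩
    have hRs := hR.mono hs1
    have e1 := (g_param hR hs1 0).1
    have e2 : J ≤ g k ρ q s 0 := by rw [hJd]; linarith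
    have e3 : 0 ≤ g k ρ q s m := hRs.2.trans (ray_all hRs m).2
    have e4 : g k ρ q s m / g k ρ q s 0 ≤ g k ρ q s m / J := by
      apply div_le_div_of_nonneg_left e3 hJ e2
    calc θ * (g k ρ q s m / g k ρ q s 0) ≤ θ * (g k ρ q s m / J) :=
          mul_le_mul_of_nonneg_left e4 hθ.le
      _ = δ * g k ρ q s m := by rw [hδd]; ring
  obtain ⟨C₂, hC₂⟩ : ∃ C₂ : ℝ, C₂ = 3 * θ * N * (N + 1) := ⟨_, rfl⟩
  have hC₂0 : 0 ≤ C₂ := by rw [hC₂]; positivity
  have hEm : ∀ m, volume (E m) ≤ ENNReal.ofReal (16 * (N + 1) * δ) * volume (L m) +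
      (if |Y k ρ q a m - r| ≤ δ' * g k ρ q a m then ENNReal.ofReal C₂ else 0) := by
    intro m
    by_cases hH : Y k ρ q a m + δ' * g k ρ q a m < r
    · refine le_trans ?_ le_self_add
      refine (Real.volume_le_diam _).trans (Metric.ediam_le ?_)
      have key : ∀ x ∈ E m, ∀ y ∈ E m, x ≤ y →
          edist x y ≤ ENNReal.ofReal (16 * (N + 1) * δ) * volume (L m) := by
        rintro x ⟨⟨hx1, hx2⟩, hx3⟩ y ⟨⟨hy1, hy2⟩, hy3⟩ hxy
        rw [edist_comm, edist_dist, Real.dist_eq, abs_of_nonneg (by linarith)]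
        exact hit_case1 hN hR hJ' h1N hδ' hδ0 hδ hH hx1 hxy hy2 hx3 hy3
      intro x hx y hy
      rcases le_total x y with h | h
      · exact key x hx y hy h
      · rw [edist_comm]; exact key y hy x hx h
    · rw [not_lt] at hH
      rcases (E m).eq_empty_or_nonempty with hemp | ⟨x₀, ⟨hx1, hx2⟩, hx3⟩
      · rw [hemp, measure_empty]; exact zero_le
      · have hP : |Y k ρ q a m - r| ≤ δ' * g k ρ q a m := by
          rw [abs_le]
          refine ⟨by linarith, ?_⟩
          have e1 := (g_param hR hx1 m).2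
          rw [← hN] at e1
          have e2 := (abs_le.1 hx3).2
          have e3 := (g_param hR hx1 m).1
          have e4 := Y_expand (k := k) (ρ := ρ) q hx1 m
          have e5 : N * δ ≤ 1 := by nlinarith
          have e6 : δ * (g k ρ q x₀ m - g k ρ q a m) ≤ Y k ρ q x₀ m - Y k ρ q a m := by
            calc δ * (g k ρ q x₀ m - g k ρ q a m)
                ≤ δ * (N * (Y k ρ q x₀ m - Y k ρ q a m)) := mul_le_mul_of_nonneg_left e1 hδ0.le
              _ = (N * δ) * (Y k ρ q x₀ m - Y k ρ q a m) := by ring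
              _ ≤ 1 * (Y k ρ q x₀ m - Y k ρ q a m) :=
                  mul_le_mul_of_nonneg_right e5 (by linarith)
              _ = _ := one_mul _
          have e7 : 0 ≤ g k ρ q a m := hR.2.trans (ray_all hR m).2
          have e8 : δ * g k ρ q a m ≤ δ' * g k ρ q a m :=
            mul_le_mul_of_nonneg_right (by linarith) e7
          linarith
        rw [if_pos hP]
        refine le_trans ?_ le_add_self
        refine (Real.volume_le_diam _).trans (Metric.ediam_le ?_)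
        have key : ∀ x ∈ E m, ∀ y ∈ E m, x ≤ y → edist x y ≤ ENNReal.ofReal C₂ := by
          rintro x ⟨⟨hx1, hx2⟩, hx3⟩ y ⟨⟨hy1, hy2⟩, hy3⟩ hxy
          rw [edist_comm, edist_dist, Real.dist_eq, abs_of_nonneg (by linarith)]
          apply ENNReal.ofReal_le_ofReal
          have := hit_case2 hN hR hJ' h1N hδ' hδ0 hδ hx1 hxy (hy2.trans hb) hx3 hy3
          rw [← hJd, hδJ] at this
          rw [hC₂]; exact this
        intro x hx y hy
        rcases le_total x y with h | h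
        · exact key x hx y hy h
        · rw [edist_comm]; exact key y hy x hx h
  have hmeas : ∀ m, MeasurableSet (L m) := by
    intro m
    have hcA : Continuous (fun s => Y k ρ q s m + δ' * g k ρ q s m) :=
      (continuous_Y q m).add (continuous_const.mul (continuous_g q m))
    have hcB : Continuous (fun s => Y k ρ q s m + δ * g k ρ q s m) :=
      (continuous_Y q m).add (continuous_const.mul (continuous_g q m))
    have e1 : MeasurableSet {s : ℝ | a ≤ s ∧ s ≤ b} := measurableSet_Icc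
    have e2 : MeasurableSet {s : ℝ | r ≤ Y k ρ q s m + δ' * g k ρ q s m} :=
      (isClosed_le continuous_const hcA).measurableSet
    have e3 : MeasurableSet {s : ℝ | Y k ρ q s m + δ * g k ρ q s m < r} :=
      (isOpen_lt hcB continuous_const).measurableSet
    exact e1.inter (e2.inter e3)
  have hdisj : Pairwise (Function.onFun Disjoint L) := by
    have key : ∀ m m', m < m' → Disjoint (L m) (L m') := by
      intro m m' hmm
      rw [Set.disjoint_left]
      rintro s ⟨⟨hs1, hs2⟩, hs3, hs4⟩ ⟨-, hs5, hs6⟩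
      have hRs := hR.mono hs1
      have e0 : 0 < g k ρ q s 0 := by
        have := (g_param hR hs1 0).1
        linarith
      have e1 : 0 ≤ g k ρ q s m := hRs.2.trans (ray_all hRs m).2
      have e2 : 0 ≤ g k ρ q s m' := hRs.2.trans (ray_all hRs m').2
      refine disj hRs e0 (δ := δ') (r := r) (by rw [← hN]; exact hδ') hmm ?_ ?_
      · rw [abs_le]
        constructor
        · linarith
        · have : 0 ≤ δ * g k ρ q s m := mul_nonneg hδ0.le e1
          have : 0 ≤ δ' * g k ρ q s m := mul_nonneg hδ'0.le e1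
          linarith
      · rw [abs_le]
        constructor
        · linarith
        · have : 0 ≤ δ * g k ρ q s m' := mul_nonneg hδ0.le e2
          have : 0 ≤ δ' * g k ρ q s m' := mul_nonneg hδ'0.le e2
          linarith
    intro m m' hne
    rcases lt_or_gt_of_ne hne with h | h
    · exact key m m' h
    · exact (key m' m h).symm
  have hLsum : ∑' m, volume (L m) ≤ ENNReal.ofReal J := by
    rw [← measure_iUnion hdisj hmeas]
    calc volume (⋃ m, L m) ≤ volume (Set.Icc a b) := by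
          apply measure_mono
          rw [Set.iUnion_subset_iff]
          intro m s hs
          exact hs.1
      _ = ENNReal.ofReal (b - a) := Real.volume_Icc
      _ ≤ ENNReal.ofReal J := ENNReal.ofReal_le_ofReal (by rw [hJd]; linarith)
  have hIsum : ∑' m, (if |Y k ρ q a m - r| ≤ δ' * g k ρ q a m then ENNReal.ofReal C₂ else 0) ≤
      ENNReal.ofReal C₂ := by
    by_cases hex : ∃ m₀, |Y k ρ q a m₀ - r| ≤ δ' * g k ρ q a m₀
    · obtain ⟨m₀, hm₀⟩ := hex
      rw [tsum_eq_single m₀]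
      · split_ifs <;> simp
      · intro m hm
        rw [if_neg]
        intro hcon
        rcases lt_or_gt_of_ne hm with h | h
        · exact disj hR hJ' (δ := δ') (r := r) (by rw [← hN]; exact hδ') h hcon hm₀
        · exact disj hR hJ' (δ := δ') (r := r) (by rw [← hN]; exact hδ') h hm₀ hcon
    · push Not at hex
      have : ∀ m, (if |Y k ρ q a m - r| ≤ δ' * g k ρ q a m then ENNReal.ofReal C₂ else 0) = 0 := by
        intro m
        rw [if_neg (not_le.2 (hex m))]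
      simp only [this, tsum_zero]
      exact zero_le
  calc volume {s : ℝ | a ≤ s ∧ s ≤ b ∧ Hit k ρ θ q r s} ≤ volume (⋃ m, E m) := measure_mono hsub
    _ ≤ ∑' m, volume (E m) := measure_iUnion_le _
    _ ≤ ∑' m, (ENNReal.ofReal (16 * (N + 1) * δ) * volume (L m) +
      (if |Y k ρ q a m - r| ≤ δ' * g k ρ q a m then ENNReal.ofReal C₂ else 0)) :=
        ENNReal.tsum_le_tsum hEm
    _ = ENNReal.ofReal (16 * (N + 1) * δ) * ∑' m, volume (L m) +
      ∑' m, (if |Y k ρ q a m - r| ≤ δ' * g k ρ q a m then ENNReal.ofReal C₂ else 0) := by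
        rw [ENNReal.tsum_add, ENNReal.tsum_mul_left]
    _ ≤ ENNReal.ofReal (16 * (N + 1) * δ) * ENNReal.ofReal J + ENNReal.ofReal C₂ := by
        gcongr
    _ = ENNReal.ofReal (16 * (N + 1) * θ + 3 * θ * N * (N + 1)) := by
        rw [← ENNReal.ofReal_mul (by positivity), ← ENNReal.ofReal_add (by positivity) hC₂0, hC₂,
          ← hδJ]
        congr 1
        ring

end block

end Pool.Agent.TH639.UC
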