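import Mathlib
import Pool.Agent.TH639.UC.Block

/-!
# The orbit of the polynomial follows the tropical orbit
-/

set_option autoImplicit false

open Filter Topology MeasureTheory Real

set_option linter.unusedSectionVars false

namespace Pool.Agent.TH639.UC

/-- the potential of the point `r` -/
noncomputable def H (r y : ℝ) : ℝ := if y ≤ r then exp ((y - r) / 2) else 2 - exp (-(y - r) / 2)

lemma H_nonneg (r y : ℝ) : 0 ≤ H r y := by
  unfold H
  split_ifs with h
  · positivity
  · have : exp (-(y - r) / 2) ≤ 1 := exp_le_one_iff.2 (by push Not at h; linarith)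
    linarith

lemma H_le (r y : ℝ) : H r y ≤ 2 := by
  unfold H
  split_ifs with h
  · have : exp ((y - r) / 2) ≤ 1 := exp_le_one_iff.2 (by linarith)
    linarith
  · have := exp_pos (-(y - r) / 2)
    linarith

lemma exp_neg_one_le : exp (-1) ≤ 1 / 2 := by
  have h1 : (2 : ℝ) ≤ exp 1 := by
    have := add_one_le_exp (1 : ℝ)
    linarith
  rw [exp_neg, one_div]
  exact inv_anti₀ (by norm_num) h1

lemma H_gap (r : ℝ) {y y' : ℝ} (h : y + 2 ≤ y') :
    exp (-|y - r| / 2) ≤ 2 * (H r y' - H r y) := by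
  have he := exp_neg_one_le
  unfold H
  by_cases h1 : y' ≤ r
  · have h2 : y ≤ r := by linarith
    rw [if_pos h1, if_pos h2, abs_of_nonpos (by linarith)]
    have e1 : -(-(y - r)) / 2 = (y - r) / 2 := by ring
    rw [e1]
    have e2 : exp ((y - r) / 2) ≤ exp ((y' - r) / 2) * exp (-1) := by
      rw [← exp_add]
      exact exp_le_exp.2 (by linarith)
    have e3 : exp ((y' - r) / 2) * exp (-1) ≤ exp ((y' - r) / 2) * (1 / 2) :=
      mul_le_mul_of_nonneg_left he (exp_pos _).le
    have e4 := exp_pos ((y - r) / 2)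
    linarith
  · by_cases h2 : y ≤ r
    · rw [if_neg h1, if_pos h2, abs_of_nonpos (by linarith)]
      have e1 : -(-(y - r)) / 2 = (y - r) / 2 := by ring
      rw [e1]
      push Not at h1
      have hu : exp ((y - r) / 2) ≤ 1 := exp_le_one_iff.2 (by linarith)
      have hv : exp (-(y' - r) / 2) ≤ 1 := exp_le_one_iff.2 (by linarith)
      have huv : exp ((y - r) / 2) * exp (-(y' - r) / 2) ≤ 1 / 2 := by
        rw [← exp_add]
        exact (exp_le_exp.2 (by linarith)).trans he
      nlinarith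
    · rw [if_neg h1, if_neg h2]
      push Not at h1 h2
      rw [abs_of_pos (by linarith)]
      have e2 : exp (-(y' - r) / 2) ≤ exp (-(y - r) / 2) * exp (-1) := by
        rw [← exp_add]
        exact exp_le_exp.2 (by linarith)
      have e3 : exp (-(y - r) / 2) * exp (-1) ≤ exp (-(y - r) / 2) * (1 / 2) :=
        mul_le_mul_of_nonneg_left he (exp_pos _).le
      linarith

variable {ι : Type*} [Fintype ι] {k : ℕ} {ρ : ι → ℝ}

/-- the sum of the errors is bounded -/
lemma sum_err {q s : ℝ} (hR : Ray k ρ q s) (hG : 2 ≤ g k ρ q s 0) (r : ℝ) (m : ℕ) :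
    ∑ j ∈ Finset.range m, exp (-|Y k ρ q s j - r| / 2) ≤ 4 := by
  have key : ∑ j ∈ Finset.range m, exp (-|Y k ρ q s j - r| / 2) ≤
      2 * (H r (Y k ρ q s m) - H r (Y k ρ q s 0)) := by
    induction m with
    | zero => simp
    | succ m ih =>
      rw [Finset.sum_range_succ]
      have h1 := (ray_all hR m).2
      have h2 : g k ρ q s m = Y k ρ q s (m + 1) - Y k ρ q s m := rfl
      have h3 := H_gap r (show Y k ρ q s m + 2 ≤ Y k ρ q s (m + 1) by linarith)
      linarith
  have h1 := H_le r (Y k ρ q s m)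
  have h2 := H_nonneg r (Y k ρ q s 0)
  linarith

/-- the bound for the error of the tropical approximation -/
noncomputable def Er (ρ : ι → ℝ) (x : ℝ) : ℝ := ∑ i, 2 * exp (-|x - ρ i|)

lemma F_same {x y : ℝ} (h : ∀ i, |x - y| < |y - ρ i|) :
    |F k ρ x - F k ρ y| ≤ kp k ρ y * |x - y| := by
  rcases le_total y x with hxy | hxy
  · have h1 := F_mono (k := k) (ρ := ρ) hxy
    rw [abs_of_nonneg (by linarith), abs_of_nonneg (by linarith)]
    refine (F_upper hxy).trans ?_
    apply mul_le_mul_of_nonneg_right _ (by linarith)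
    unfold km kp
    gcongr with i
    by_cases h2 : ρ i < x
    · have h3 : ρ i ≤ y := by
        by_contra hcon
        push Not at hcon
        have h4 := h i
        rw [abs_of_nonneg (by linarith), abs_of_neg (by linarith)] at h4
        linarith
      rw [if_pos h2, if_pos h3]
    · rw [if_neg h2]
      split_ifs <;> norm_num
  · have h1 := F_mono (k := k) (ρ := ρ) hxy
    rw [abs_of_nonpos (by linarith), abs_of_nonpos (by linarith)]
    have h2 := F_upper (k := k) (ρ := ρ) hxy
    have h3 : km k ρ y * (y - x) ≤ kp k ρ y * (y - x) :=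
      mul_le_mul_of_nonneg_right (km_le_kp y) (by linarith)
    linarith

/-- the orbit follows the tropical orbit -/
theorem track {q s κ₀ θ : ℝ} (hR : Ray k ρ q s) (hG : 2 ≤ g k ρ q s 0) (hκ : 0 ≤ κ₀)
    (hθ : 2 * (κ₀ + 8 * Fintype.card ι + 1) ≤ θ)
    (hfar : ∀ m i, θ * (g k ρ q s m / g k ρ q s 0) ≤ |Y k ρ q s m - ρ i|)
    (x : ℕ → ℝ) (p : ℕ → Prop) (hp : p 0) (hx0 : |x 0 - (s + q)| ≤ κ₀)
    (hx : ∀ m, p m → (∀ i, 1 ≤ |x m - ρ i|) →
      p (m + 1) ∧ |x (m + 1) - (F k ρ (x m) + s)| ≤ Er ρ (x m)) (m : ℕ) :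
    p m ∧ |x m - Y k ρ q s m| ≤
      (κ₀ + 8 * Fintype.card ι) * (g k ρ q s m / g k ρ q s 0) := by
  have hg0 : 0 < g k ρ q s 0 := by linarith
  set S : ℕ → ℝ := fun m => κ₀ + ∑ j ∈ Finset.range m,
    ∑ i, 2 * exp (-|Y k ρ q s j - ρ i| / 2) with hS
  have hS0 : ∀ m, 0 ≤ S m := by
    intro m
    have : 0 ≤ ∑ j ∈ Finset.range m, ∑ i, 2 * exp (-|Y k ρ q s j - ρ i| / 2) :=
      Finset.sum_nonneg fun j _ => Finset.sum_nonneg fun i _ => by positivity
    simp only [hS]; linarith
  have hSle : ∀ m, S m ≤ κ₀ + 8 * Fintype.card ι := by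
    intro m
    simp only [hS]
    rw [Finset.sum_comm]
    have : ∑ i, ∑ j ∈ Finset.range m, 2 * exp (-|Y k ρ q s j - ρ i| / 2) ≤ ∑ _i : ι, (8 : ℝ) := by
      apply Finset.sum_le_sum
      intro i _
      rw [← Finset.mul_sum]
      have := sum_err hR hG (ρ i) m
      linarith
    rw [Finset.sum_const, Finset.card_univ, nsmul_eq_mul] at this
    linarith
  have hR1 : ∀ m, 1 ≤ g k ρ q s m / g k ρ q s 0 := by
    intro m
    rw [le_div_iff₀ hg0, one_mul]
    exact (ray_all hR m).2
  have key : ∀ m, p m ∧ |x m - Y k ρ q s m| ≤ S m * (g k ρ q s m / g k ρ q s 0) := by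
    intro m
    induction m with
    | zero =>
      refine ⟨hp, ?_⟩
      rw [div_self hg0.ne', mul_one]
      simp only [hS, Finset.range_zero, Finset.sum_empty, add_zero]
      exact hx0
    | succ m ih =>
      obtain ⟨hpm, hm⟩ := ih
      set R := g k ρ q s m / g k ρ q s 0 with hRd
      have hR1m : 1 ≤ R := hR1 m
      have hm' : |x m - Y k ρ q s m| ≤ (κ₀ + 8 * Fintype.card ι) * R :=
        hm.trans (mul_le_mul_of_nonneg_right (hSle m) (by linarith))
      have hhalf : ∀ i, |x m - Y k ρ q s m| ≤ |Y k ρ q s m - ρ i| / 2 - 1 := by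
        intro i
        have h1 := hfar m i
        have h2 : 2 * (κ₀ + 8 * Fintype.card ι + 1) * R ≤ θ * R :=
          mul_le_mul_of_nonneg_right hθ (by linarith)
        nlinarith
      have hlow : ∀ i, |Y k ρ q s m - ρ i| / 2 + 1 ≤ |x m - ρ i| := by
        intro i
        have h1 := hhalf i
        have h2 : |Y k ρ q s m - ρ i| ≤ |x m - Y k ρ q s m| + |x m - ρ i| := by
          have : Y k ρ q s m - ρ i = -(x m - Y k ρ q s m) + (x m - ρ i) := by ring
          rw [this]
          exact (abs_add_le _ _).trans (by rw [abs_neg])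
        linarith
      have hfar1 : ∀ i, 1 ≤ |x m - ρ i| := by
        intro i
        have := hlow i
        have h3 := abs_nonneg (Y k ρ q s m - ρ i)
        linarith
      obtain ⟨hp1, hx1⟩ := hx m hpm hfar1
      refine ⟨hp1, ?_⟩
      have hsame := F_same (k := k) (ρ := ρ) (x := x m) (y := Y k ρ q s m) (by
        intro i
        have h1 := hhalf i
        have h3 := abs_nonneg (Y k ρ q s m - ρ i)
        have h4 := abs_nonneg (x m - Y k ρ q s m)
        linarith)
      have hEr : Er ρ (x m) ≤ ∑ i, 2 * exp (-|Y k ρ q s m - ρ i| / 2) := by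
        unfold Er
        apply Finset.sum_le_sum
        intro i _
        have := hlow i
        gcongr
        linarith
      have hRsucc : kp k ρ (Y k ρ q s m) * R ≤ g k ρ q s (m + 1) / g k ρ q s 0 := by
        rw [hRd, ← mul_div_assoc]
        apply div_le_div_of_nonneg_right _ hg0.le
        rw [g_succ]
        have h3 : g k ρ q s m = Y k ρ q s (m + 1) - Y k ρ q s m := rfl
        rw [h3]
        apply F_lower
        have := (ray_all hR m).2
        linarith
      have hR1s := hR1 (m + 1)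
      have hkp1 := one_le_kp (ray_all hR m).1
      have e1 : |x (m + 1) - Y k ρ q s (m + 1)| ≤
          Er ρ (x m) + kp k ρ (Y k ρ q s m) * |x m - Y k ρ q s m| := by
        have e2 : x (m + 1) - Y k ρ q s (m + 1) = (x (m + 1) - (F k ρ (x m) + s)) +
            (F k ρ (x m) - F k ρ (Y k ρ q s m)) := by
          simp only [Y]; ring
        rw [e2]
        exact (abs_add_le _ _).trans (add_le_add hx1 hsame)
      have e3 : kp k ρ (Y k ρ q s m) * |x m - Y k ρ q s m| ≤
          S m * (g k ρ q s (m + 1) / g k ρ q s 0) := by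
        calc kp k ρ (Y k ρ q s m) * |x m - Y k ρ q s m|
            ≤ kp k ρ (Y k ρ q s m) * (S m * R) := mul_le_mul_of_nonneg_left hm (by linarith)
          _ = S m * (kp k ρ (Y k ρ q s m) * R) := by ring
          _ ≤ _ := mul_le_mul_of_nonneg_left hRsucc (hS0 m)
      have hnn : 0 ≤ ∑ i, 2 * exp (-|Y k ρ q s m - ρ i| / 2) :=
        Finset.sum_nonneg fun i _ => by positivity
      have e4 : ∑ i, 2 * exp (-|Y k ρ q s m - ρ i| / 2) ≤
          (∑ i, 2 * exp (-|Y k ρ q s m - ρ i| / 2)) * (g k ρ q s (m + 1) / g k ρ q s 0) :=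
        le_mul_of_one_le_right hnn hR1s
      have e5 : S (m + 1) = S m + ∑ i, 2 * exp (-|Y k ρ q s m - ρ i| / 2) := by
        simp only [hS]
        rw [Finset.sum_range_succ]
        ring
      rw [e5, add_mul]
      linarith
  obtain ⟨h1, h2⟩ := key m
  exact ⟨h1, h2.trans (mul_le_mul_of_nonneg_right (hSle m) (by linarith [hR1 m]))⟩

/-- the orbit which follows the tropical orbit tends to infinity -/
theorem track_grow {q s κ : ℝ} (hR : Ray k ρ q s) (hκ : 0 ≤ κ) (hG2 : 2 ≤ g k ρ q s 0)
    (hG : 2 * κ * ((k : ℝ) + Fintype.card ι + 1) ≤ g k ρ q s 0)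
    (x : ℕ → ℝ) (hx : ∀ m, |x m - Y k ρ q s m| ≤ κ * (g k ρ q s m / g k ρ q s 0)) :
    Tendsto x atTop atTop := by
  have hg0 : 0 < g k ρ q s 0 := by linarith
  have hstep : ∀ m, x m + 1 ≤ x (m + 1) := by
    intro m
    have h1 := (abs_le.1 (hx m)).2
    have h2 := (abs_le.1 (hx (m + 1))).1
    have h3 : g k ρ q s m = Y k ρ q s (m + 1) - Y k ρ q s m := rfl
    have h4 := g_succ_le hR m
    have h5 := (ray_all hR m).2
    have h6 : κ * (g k ρ q s m / g k ρ q s 0) + κ * (g k ρ q s (m + 1) / g k ρ q s 0) ≤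
        g k ρ q s m / 2 := by
      have e1 : κ * (g k ρ q s m / g k ρ q s 0) + κ * (g k ρ q s (m + 1) / g k ρ q s 0) =
        κ * (g k ρ q s m + g k ρ q s (m + 1)) / g k ρ q s 0 := by field_simp
      rw [e1, div_le_iff₀ hg0]
      have e2 : κ * (g k ρ q s m + g k ρ q s (m + 1)) ≤
          κ * (g k ρ q s m + ((k : ℝ) + Fintype.card ι) * g k ρ q s m) :=
        mul_le_mul_of_nonneg_left (by linarith) hκ
      have e3 : κ * (g k ρ q s m + ((k : ℝ) + Fintype.card ι) * g k ρ q s m) =
          (2 * κ * ((k : ℝ) + Fintype.card ι + 1)) * (g k ρ q s m / 2) := by ring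
      have e4 : (2 * κ * ((k : ℝ) + Fintype.card ι + 1)) * (g k ρ q s m / 2) ≤
          g k ρ q s 0 * (g k ρ q s m / 2) :=
        mul_le_mul_of_nonneg_right hG (by linarith)
      linarith
    linarith
  have hall : ∀ m : ℕ, x 0 + m ≤ x m := by
    intro m
    induction m with
    | zero => simp
    | succ m ih =>
      have := hstep m
      push_cast
      linarith
  exact tendsto_atTop_mono hall (tendsto_atTop_add_const_left _ _ tendsto_natCast_atTop_atTop)

end Pool.Agent.TH639.UC
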