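import Mathlib
import Pool.Agent.TH639.UC.Track
import Pool.Agent.W751.CD.Dyn

/-!
# From the tropical orbit to the polynomial
-/

set_option autoImplicit false

open Filter Topology MeasureTheory Polynomial

set_option linter.unusedSectionVars false

namespace Pool.Agent.TH639.UC

open Pool.Agent.W751.CD

variable {ι : Type*} [Fintype ι] {k : ℕ} {z : ι → ℂ}

/-- the monic polynomial with the root `0` of multiplicity `k` and the roots `z i` -/
noncomputable def Tz (k : ℕ) (z : ι → ℂ) : ℂ[X] := X ^ k * ∏ i, (X - C (z i))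

/-- the logarithms of the moduli of the roots -/
noncomputable def lr (z : ι → ℂ) : ι → ℝ := fun i => Real.log ‖z i‖

lemma Tz_eval (w : ℂ) : (Tz k z).eval w = w ^ k * ∏ i, (w - z i) := by
  simp [Tz, eval_prod]

/-- a single factor -/
lemma factor {w v : ℂ} (hw : w ≠ 0) (hv : v ≠ 0) (h : 1 ≤ |Real.log ‖w‖ - Real.log ‖v‖|) :
    w - v ≠ 0 ∧ |Real.log ‖w - v‖ - max (Real.log ‖w‖) (Real.log ‖v‖)| ≤
      2 * Real.exp (-|Real.log ‖w‖ - Real.log ‖v‖|) := by
  have key : ∀ w v : ℂ, w ≠ 0 → v ≠ 0 → 1 ≤ Real.log ‖w‖ - Real.log ‖v‖ →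
      w - v ≠ 0 ∧ |Real.log ‖w - v‖ - Real.log ‖w‖| ≤
        2 * Real.exp (-(Real.log ‖w‖ - Real.log ‖v‖)) := by
    intro w v hw hv h
    have hwp := norm_pos_iff.2 hw
    have hvp := norm_pos_iff.2 hv
    obtain ⟨u, hu⟩ : ∃ u : ℝ, u = Real.exp (-(Real.log ‖w‖ - Real.log ‖v‖)) := ⟨_, rfl⟩
    have hu0 : 0 < u := by rw [hu]; exact Real.exp_pos _
    have hu2 : u ≤ 1 / 2 := by
      rw [hu]
      exact (Real.exp_le_exp.2 (by linarith)).trans exp_neg_one_le
    have huv : ‖v‖ = ‖w‖ * u := by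
      rw [hu, neg_sub, Real.exp_sub, Real.exp_log hvp, Real.exp_log hwp]
      field_simp
    have h1 : ‖w‖ * (1 - u) ≤ ‖w - v‖ := by
      have := norm_sub_norm_le w v
      rw [mul_sub, mul_one, ← huv]; exact this
    have h2 : ‖w - v‖ ≤ ‖w‖ * (1 + u) := by
      have := norm_sub_le w v
      rw [mul_add, mul_one, ← huv]; exact this
    have h3 : 0 < ‖w - v‖ := lt_of_lt_of_le (mul_pos hwp (by linarith)) h1
    refine ⟨norm_pos_iff.1 h3, ?_⟩
    rw [← hu, abs_le]
    have h4 : Real.log ‖w - v‖ - Real.log ‖w‖ = Real.log (‖w - v‖ / ‖w‖) := by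
      rw [Real.log_div h3.ne' hwp.ne']
    rw [h4]
    have h5 : 1 - u ≤ ‖w - v‖ / ‖w‖ := by rw [le_div_iff₀ hwp]; linarith
    have h6 : ‖w - v‖ / ‖w‖ ≤ 1 + u := by rw [div_le_iff₀ hwp]; linarith
    constructor
    · have h7 : Real.log (1 - u) ≤ Real.log (‖w - v‖ / ‖w‖) :=
        Real.log_le_log (by linarith) h5
      have h8 := Real.one_sub_inv_le_log_of_pos (show (0 : ℝ) < 1 - u by linarith)
      have h9 : (1 - u)⁻¹ ≤ 1 + 2 * u := by
        rw [inv_le_comm₀ (by linarith) (by linarith), inv_le_iff_one_le_mul₀ (by linarith)]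
        nlinarith
      linarith
    · have h7 : Real.log (‖w - v‖ / ‖w‖) ≤ Real.log (1 + u) :=
        Real.log_le_log (by linarith) h6
      have h8 := Real.log_le_sub_one_of_pos (show (0 : ℝ) < 1 + u by linarith)
      linarith
  rcases le_total 0 (Real.log ‖w‖ - Real.log ‖v‖) with h0 | h0
  · rw [abs_of_nonneg h0] at h ⊢
    rw [max_eq_left (by linarith)]
    exact key w v hw hv h
  · rw [abs_of_nonpos h0] at h ⊢
    rw [max_eq_right (by linarith)]
    obtain ⟨h1, h2⟩ := key v w hv hw (by linarith)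
    refine ⟨fun h3 => h1 (by rw [← neg_sub, h3, neg_zero]), ?_⟩
    rw [norm_sub_rev, neg_sub]
    rw [neg_sub] at h2
    rw [show Real.log ‖v‖ - Real.log ‖w‖ = Real.log ‖v‖ - Real.log ‖w‖ from rfl, neg_sub]
    exact h2

lemma F_low {ρ : ι → ℝ} {x : ℝ} (hk : k = 0) (h : ∀ i, x ≤ ρ i) : F k ρ x = ∑ i, ρ i := by
  subst hk
  unfold F
  simp only [Nat.cast_zero, zero_mul, zero_add]
  exact Finset.sum_congr rfl fun i _ => max_eq_right (h i)

lemma log_prod {w : ℂ} (h : ∀ i, w - z i ≠ 0) (S : Finset ι) :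
    Real.log ‖∏ i ∈ S, (w - z i)‖ = ∑ i ∈ S, Real.log ‖w - z i‖ := by
  rw [norm_prod, Real.log_prod]
  intro i _
  exact norm_ne_zero_iff.2 (h i)

/-- the tropical approximation of the polynomial -/
lemma approx (hz : ∀ i, z i ≠ 0) {w : ℂ} (hw : w ≠ 0)
    (hfar : ∀ i, 1 ≤ |Real.log ‖w‖ - lr z i|) :
    (Tz k z).eval w ≠ 0 ∧
      |Real.log ‖(Tz k z).eval w‖ - F k (lr z) (Real.log ‖w‖)| ≤ Er (lr z) (Real.log ‖w‖) := by
  have h1 : ∀ i, w - z i ≠ 0 := fun i => (factor hw (hz i) (hfar i)).1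
  have hprod : ∏ i, (w - z i) ≠ 0 := Finset.prod_ne_zero_iff.2 fun i _ => h1 i
  have hne : (Tz k z).eval w ≠ 0 := by
    rw [Tz_eval]; exact mul_ne_zero (pow_ne_zero _ hw) hprod
  refine ⟨hne, ?_⟩
  rw [Tz_eval, norm_mul, Real.log_mul (norm_ne_zero_iff.2 (pow_ne_zero _ hw))
    (norm_ne_zero_iff.2 hprod), norm_pow, Real.log_pow, log_prod h1]
  unfold F Er
  have e1 : (k : ℝ) * Real.log ‖w‖ + ∑ i, Real.log ‖w - z i‖ -
      (k * Real.log ‖w‖ + ∑ i, max (Real.log ‖w‖) (lr z i)) =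
      ∑ i, (Real.log ‖w - z i‖ - max (Real.log ‖w‖) (lr z i)) := by
    rw [Finset.sum_sub_distrib]; ring
  rw [e1]
  refine (Finset.abs_sum_le_sum_abs _ _).trans ?_
  apply Finset.sum_le_sum
  intro i _
  exact (factor hw (hz i) (hfar i)).2

lemma Er_le {x : ℝ} (hfar : ∀ i, 1 ≤ |x - lr z i|) : Er (lr z) x ≤ Fintype.card ι := by
  unfold Er
  have : ∑ i, 2 * Real.exp (-|x - lr z i|) ≤ ∑ _i : ι, (1 : ℝ) := by
    apply Finset.sum_le_sum
    intro i _
    have h1 : Real.exp (-|x - lr z i|) ≤ Real.exp (-1) :=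
      Real.exp_le_exp.2 (by linarith [hfar i])
    have h2 := exp_neg_one_le
    linarith
  rwa [Finset.sum_const, Finset.card_univ, nsmul_eq_mul, mul_one] at this

/-- the upper bound in a disc -/
lemma upper (hz : ∀ i, z i ≠ 0) {w : ℂ} {x : ℝ} (hw : ‖w‖ ≤ Real.exp x) :
    ‖(Tz k z).eval w‖ ≤ Real.exp (Fintype.card ι + F k (lr z) x) := by
  rw [Tz_eval, norm_mul, norm_pow, norm_prod]
  have h1 : ‖w‖ ^ k ≤ Real.exp (k * x) := by
    rw [Real.exp_nat_mul]
    gcongr
  have h2 : ∏ i, ‖w - z i‖ ≤ ∏ i, Real.exp (1 + max x (lr z i)) := by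
    apply Finset.prod_le_prod
    · intro i _; exact norm_nonneg _
    · intro i _
      have h3 : ‖z i‖ ≤ Real.exp (max x (lr z i)) := by
        refine le_trans ?_ (Real.exp_le_exp.2 (le_max_right _ _))
        unfold lr
        rw [Real.exp_log (norm_pos_iff.2 (hz i))]
      have h4 : ‖w‖ ≤ Real.exp (max x (lr z i)) :=
        hw.trans (Real.exp_le_exp.2 (le_max_left _ _))
      have h5 : (2 : ℝ) ≤ Real.exp 1 := by
        have := Real.add_one_le_exp (1 : ℝ)
        linarith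
      calc ‖w - z i‖ ≤ ‖w‖ + ‖z i‖ := norm_sub_le _ _
        _ ≤ 2 * Real.exp (max x (lr z i)) := by linarith
        _ ≤ Real.exp 1 * Real.exp (max x (lr z i)) := by gcongr
        _ = _ := by rw [← Real.exp_add]
  have h3 : ∏ i, Real.exp (1 + max x (lr z i)) =
      Real.exp (Fintype.card ι + ∑ i, max x (lr z i)) := by
    rw [← Real.exp_sum, Finset.sum_add_distrib, Finset.sum_const, Finset.card_univ, nsmul_eq_mul,
      mul_one]
  rw [h3] at h2
  calc ‖w‖ ^ k * ∏ i, ‖w - z i‖ ≤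
      Real.exp (k * x) * Real.exp (Fintype.card ι + ∑ i, max x (lr z i)) := by gcongr
    _ = _ := by
        rw [← Real.exp_add]; unfold F; congr 1; ring

/-- a trap -/
lemma trap (hz : ∀ i, z i ≠ 0) {b : ℂ} (hb : b ≠ 0) {x : ℝ}
    (h : Fintype.card ι + F k (lr z) x + Real.log ‖b‖ + 2 ≤ x) {w : ℂ}
    (hw : ‖w‖ ≤ Real.exp (x - 1)) : Att (C b * Tz k z) w := by
  have h4 : (4 : ℝ) ≤ Real.exp 2 := by
    have h1 : (2 : ℝ) ≤ Real.exp 1 := by
      have := Real.add_one_le_exp (1 : ℝ)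
      linarith
    have : Real.exp 2 = Real.exp 1 * Real.exp 1 := by rw [← Real.exp_add]; norm_num
    rw [this]
    nlinarith
  apply att_of_inner (Real.exp_pos x)
  · intro v hv
    rw [eval_mul, eval_C, norm_mul]
    have h1 := upper (k := k) hz hv
    have h2 : ‖b‖ = Real.exp (Real.log ‖b‖) := (Real.exp_log (norm_pos_iff.2 hb)).symm
    rw [h2]
    calc Real.exp (Real.log ‖b‖) * ‖(Tz k z).eval v‖
        ≤ Real.exp (Real.log ‖b‖) * Real.exp (Fintype.card ι + F k (lr z) x) := by gcongr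
      _ = Real.exp (Real.log ‖b‖ + (Fintype.card ι + F k (lr z) x)) := by rw [← Real.exp_add]
      _ ≤ Real.exp (x - 2) := Real.exp_le_exp.2 (by linarith)
      _ = Real.exp x / Real.exp 2 := by rw [Real.exp_sub]
      _ ≤ Real.exp x / 4 := by
          apply div_le_div_of_nonneg_left (Real.exp_pos _).le (by norm_num) h4
  · refine hw.trans ?_
    have : Real.exp (x - 1) = Real.exp x * Real.exp (-1) := by rw [← Real.exp_add]; rfl
    rw [this]
    have h1 := exp_neg_one_le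
    have h2 := Real.exp_pos x
    nlinarith

/-- the escape radius -/
lemma far (_hz : ∀ i, z i ≠ 0) (hN : 2 ≤ k + Fintype.card ι) {b : ℂ} (hb : b ≠ 0) :
    ∃ R : ℝ, 0 < R ∧ ∀ w : ℂ, R ≤ ‖w‖ → 2 * ‖w‖ ≤ ‖(C b * Tz k z).eval w‖ := by
  have hbp := norm_pos_iff.2 hb
  obtain ⟨M, hM⟩ : ∃ M : ℝ, ∀ i, 2 * ‖z i‖ ≤ M := by
    obtain ⟨M, hM⟩ := (Set.finite_range fun i => 2 * ‖z i‖).bddAbove
    exact ⟨M, fun i => hM ⟨i, rfl⟩⟩
  set R := max (max M 1) (2 * 2 ^ (Fintype.card ι) / ‖b‖) with hR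
  have hR1 : 1 ≤ R := (le_max_right M 1).trans (le_max_left _ _)
  refine ⟨R, by linarith, fun w hw => ?_⟩
  have hw1 : 1 ≤ ‖w‖ := hR1.trans hw
  rw [eval_mul, eval_C, norm_mul, Tz_eval, norm_mul, norm_pow, norm_prod]
  have h1 : ∏ _i : ι, (‖w‖ / 2) ≤ ∏ i, ‖w - z i‖ := by
    apply Finset.prod_le_prod
    · intro i _; positivity
    · intro i _
      have h2 := norm_sub_norm_le w (z i)
      have h3 : 2 * ‖z i‖ ≤ ‖w‖ := (hM i).trans (((le_max_left M 1).trans (le_max_left _ _)).trans hw)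
      linarith
  rw [Finset.prod_const, Finset.card_univ, div_pow] at h1
  have h2 : 2 * 2 ^ (Fintype.card ι) ≤ ‖b‖ * ‖w‖ := by
    have h3 : 2 * 2 ^ (Fintype.card ι) / ‖b‖ ≤ ‖w‖ := (le_max_right _ _).trans hw
    rw [div_le_iff₀ hbp] at h3
    linarith
  have h3 : ‖w‖ ^ 2 ≤ ‖w‖ ^ (k + Fintype.card ι) := pow_le_pow_right₀ hw1 hN
  have h4 : ‖w‖ ^ k * (‖w‖ ^ (Fintype.card ι) / 2 ^ (Fintype.card ι)) =
      ‖w‖ ^ (k + Fintype.card ι) / 2 ^ (Fintype.card ι) := by
    rw [pow_add, mul_div_assoc]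
  calc 2 * ‖w‖ = (2 * 2 ^ (Fintype.card ι)) * ‖w‖ / 2 ^ (Fintype.card ι) := by field_simp
    _ ≤ (‖b‖ * ‖w‖) * ‖w‖ / 2 ^ (Fintype.card ι) := by gcongr
    _ = ‖b‖ * (‖w‖ ^ 2 / 2 ^ (Fintype.card ι)) := by ring
    _ ≤ ‖b‖ * (‖w‖ ^ (k + Fintype.card ι) / 2 ^ (Fintype.card ι)) := by gcongr
    _ = ‖b‖ * (‖w‖ ^ k * (‖w‖ ^ (Fintype.card ι) / 2 ^ (Fintype.card ι))) := by rw [h4]
    _ ≤ ‖b‖ * (‖w‖ ^ k * ∏ i, ‖w - z i‖) := by gcongr

/-- the number `N + 1` as a real number -/
noncomputable def NN (ι : Type*) [Fintype ι] (k : ℕ) : ℝ := (k : ℝ) + Fintype.card ι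

/-- the margins -/
noncomputable def th (ι : Type*) [Fintype ι] (k : ℕ) : ℝ := 20 * (NN ι k + 1)

/-- the lower bound for the gaps -/
noncomputable def G0 (ι : Type*) [Fintype ι] (k : ℕ) : ℝ := 160 * (NN ι k + 1) ^ 2

/-- the parameter `s` is good for the start value `q` -/
def Good (k : ℕ) (ρ : ι → ℝ) (q s : ℝ) : Prop :=
  (∀ i, th ι k ≤ |s + q - ρ i|) ∧
  (Dom k ρ (s + q) → g k ρ q s 0 ≤ -G0 ι k ∨ (G0 ι k ≤ g k ρ q s 0 ∧
    ∀ i, ¬ Hit k ρ (th ι k) q (ρ i) s))

lemma NN_bounds (ι : Type*) [Fintype ι] (k : ℕ) :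
    (Fintype.card ι : ℝ) ≤ NN ι k ∧ 0 ≤ NN ι k ∧ (k : ℝ) ≤ NN ι k := by
  have h1 : (0 : ℝ) ≤ k := Nat.cast_nonneg k
  have h2 : (0 : ℝ) ≤ Fintype.card ι := Nat.cast_nonneg _
  refine ⟨?_, ?_, ?_⟩ <;> unfold NN <;> linarith

/-- the fate of a point in the region where the slope is at least one -/
lemma fate_dom (hz : ∀ i, z i ≠ 0) (hN : 2 ≤ k + Fintype.card ι) {b : ℂ} (hb : b ≠ 0) {q : ℝ}
    (hg : Good k (lr z) q (Real.log ‖b‖)) (hd : Dom k (lr z) (Real.log ‖b‖ + q)) {w : ℂ}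
    (hw : w ≠ 0) (hwq : |Real.log ‖w‖ - (Real.log ‖b‖ + q)| ≤ Fintype.card ι) :
    Esc (C b * Tz k z) w ∨ Att (C b * Tz k z) w := by
  obtain ⟨hcard, hNN, -⟩ := NN_bounds ι k
  have hcard0 : (0 : ℝ) ≤ Fintype.card ι := Nat.cast_nonneg _
  set s := Real.log ‖b‖ with hs
  rcases hg.2 hd with h | ⟨h, hhit⟩
  · right
    apply trap hz hb (x := s + q + Fintype.card ι + 1)
    · have h1 := F_upperN (k := k) (ρ := lr z)
        (show s + q ≤ s + q + Fintype.card ι + 1 by linarith)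
      have h2 : g k (lr z) q s 0 = F k (lr z) (s + q) + s - (s + q) := rfl
      rw [h2] at h
      have h3 : ((k : ℝ) + Fintype.card ι) * (s + q + Fintype.card ι + 1 - (s + q)) ≤
          NN ι k * (NN ι k + 1) := by
        have : ((k : ℝ) + Fintype.card ι) = NN ι k := rfl
        rw [this]
        apply mul_le_mul_of_nonneg_left _ hNN
        linarith
      unfold G0 at h
      rw [← hs]
      nlinarith
    · have h1 : ‖w‖ = Real.exp (Real.log ‖w‖) := (Real.exp_log (norm_pos_iff.2 hw)).symm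
      rw [h1]
      apply Real.exp_le_exp.2
      have := (abs_le.1 hwq).2
      linarith
  · left
    have hG0 : (160 : ℝ) ≤ G0 ι k := by unfold G0; nlinarith
    have hR : Ray k (lr z) q s := ⟨hd, by linarith⟩
    obtain ⟨R, hR0, hfar⟩ := far (k := k) hz hN hb
    set P : ℂ[X] := C b * Tz k z with hP
    set x : ℕ → ℝ := fun m => Real.log ‖(fun y : ℂ => P.eval y)^[m] w‖ with hx
    have htr := track (κ₀ := Fintype.card ι) (θ := th ι k) hR (by linarith) hcard0
      (by unfold th; linarith)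
      (fun m i => by
        have := hhit i
        unfold Hit at this
        push Not at this
        exact (this m).le)
      x (fun m => (fun y : ℂ => P.eval y)^[m] w ≠ 0) (by simpa using hw) (by simpa [hx] using hwq)
      (by
        intro m hm hfar1
        have h1 := approx (k := k) hz hm hfar1
        simp only [Function.iterate_succ_apply', hx]
        have e1 : P.eval ((fun y : ℂ => P.eval y)^[m] w) =
            b * (Tz k z).eval ((fun y : ℂ => P.eval y)^[m] w) := by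
          rw [hP, eval_mul, eval_C]
        rw [e1]
        refine ⟨mul_ne_zero hb h1.1, ?_⟩
        rw [norm_mul, Real.log_mul (norm_ne_zero_iff.2 hb) (norm_ne_zero_iff.2 h1.1)]
        have e2 : Real.log ‖b‖ + Real.log ‖(Tz k z).eval ((fun y : ℂ => P.eval y)^[m] w)‖ -
          (F k (lr z) (Real.log ‖(fun y : ℂ => P.eval y)^[m] w‖) + s) =
          Real.log ‖(Tz k z).eval ((fun y : ℂ => P.eval y)^[m] w)‖ -
          F k (lr z) (Real.log ‖(fun y : ℂ => P.eval y)^[m] w‖) := by rw [← hs]; ring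
        rw [e2]
        exact h1.2)
    have hgrow := track_grow (κ := (Fintype.card ι : ℝ) + 8 * Fintype.card ι) hR (by linarith)
      (by linarith) (by
        refine le_trans ?_ h
        unfold G0
        have : ((k : ℝ) + Fintype.card ι) = NN ι k := rfl
        rw [this]
        nlinarith) x (fun m => (htr m).2)
    obtain ⟨m, hm⟩ := (hgrow.eventually_ge_atTop (Real.log R)).exists
    have h1 : R ≤ ‖(fun y : ℂ => P.eval y)^[m] w‖ := by
      have h2 := Real.exp_le_exp.2 hm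
      rwa [Real.exp_log hR0, hx, Real.exp_log (norm_pos_iff.2 (htr m).1)] at h2
    have h2 : Esc P ((fun y : ℂ => P.eval y)^[m] w) := esc_of_large hR0 hfar h1
    have hEsc : ∀ (m : ℕ) (w : ℂ), Esc P ((fun y : ℂ => P.eval y)^[m] w) → Esc P w := by
      intro m
      induction m with
      | zero => intro w h; simpa using h
      | succ m ih =>
        intro w h
        rw [Function.iterate_succ_apply] at h
        exact (ih _ h).shift
    exact hEsc m w h2

/-- the fate of the image of zero, if zero is not a root -/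
lemma fate_zero (hz : ∀ i, z i ≠ 0) (hk : k = 0) (hN : 2 ≤ k + Fintype.card ι) {b : ℂ}
    (hb : b ≠ 0) (hg : Good k (lr z) (∑ i, lr z i) (Real.log ‖b‖)) {w : ℂ}
    (hw : w ≠ 0) (hwq : |Real.log ‖w‖ - (Real.log ‖b‖ + ∑ i, lr z i)| ≤ Fintype.card ι) :
    Esc (C b * Tz k z) w ∨ Att (C b * Tz k z) w := by
  obtain ⟨hcard, hNN, -⟩ := NN_bounds ι k
  have hcard0 : (0 : ℝ) ≤ Fintype.card ι := Nat.cast_nonneg _
  by_cases hd : Dom k (lr z) (Real.log ‖b‖ + ∑ i, lr z i)
  · exact fate_dom hz hN hb hg hd hw hwq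
  · right
    unfold Dom at hd
    push Not at hd
    set s := Real.log ‖b‖ with hs
    have hlow : ∀ i, s + ∑ i, lr z i + th ι k ≤ lr z i := by
      intro i
      have h1 := hd.2 i
      have h2 := hg.1 i
      rw [abs_of_neg (by linarith)] at h2
      linarith
    apply trap hz hb (x := s + ∑ i, lr z i + th ι k)
    · have hF : F k (lr z) (s + ∑ i, lr z i + th ι k) = ∑ i, lr z i := F_low hk hlow
      rw [hF, ← hs]
      have : (Fintype.card ι : ℝ) + 2 ≤ th ι k := by unfold th; linarith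
      linarith
    · have h1 : ‖w‖ = Real.exp (Real.log ‖w‖) := (Real.exp_log (norm_pos_iff.2 hw)).symm
      rw [h1]
      apply Real.exp_le_exp.2
      have := (abs_le.1 hwq).2
      have : (Fintype.card ι : ℝ) + 2 ≤ th ι k := by unfold th; linarith
      linarith

lemma log_T0 (hz : ∀ i, z i ≠ 0) (hk : k = 0) :
    (Tz k z).eval 0 ≠ 0 ∧ Real.log ‖(Tz k z).eval 0‖ = ∑ i, lr z i := by
  have h1 : ∀ i, (0 : ℂ) - z i ≠ 0 := fun i => by rw [zero_sub, neg_ne_zero]; exact hz i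
  have hprod : ∏ i, ((0 : ℂ) - z i) ≠ 0 := Finset.prod_ne_zero_iff.2 fun i _ => h1 i
  rw [Tz_eval, hk, pow_zero, one_mul]
  refine ⟨hprod, ?_⟩
  rw [log_prod h1]
  refine Finset.sum_congr rfl fun i _ => ?_
  unfold lr
  rw [zero_sub, norm_neg]

/-- the deterministic part: good parameters give hyperbolic polynomials -/
theorem hyp_of_good (hz : ∀ i, z i ≠ 0) (hN : 2 ≤ k + Fintype.card ι)
    (hexc : ¬ (k = 1 ∧ ∃ c : ℂ, c ≠ 0 ∧ (Tz k z).eval c = 0 ∧ (derivative (Tz k z)).eval c = 0))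
    {b : ℂ} (hb : b ≠ 0)
    (h0 : k = 0 → Good k (lr z) (∑ i, lr z i) (Real.log ‖b‖))
    (hc : ∀ c : ℂ, (derivative (Tz k z)).eval c = 0 → (Tz k z).eval c ≠ 0 →
      Good k (lr z) (Real.log ‖(Tz k z).eval c‖) (Real.log ‖b‖)) :
    Hyp (C b * Tz k z) := by
  have hev : ∀ w, (C b * Tz k z).eval w = b * (Tz k z).eval w := fun w => by
    rw [eval_mul, eval_C]
  have hcard0 : (0 : ℝ) ≤ Fintype.card ι := Nat.cast_nonneg _
  have hsh : ∀ w, (Esc (C b * Tz k z) ((C b * Tz k z).eval w) ∨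
      Att (C b * Tz k z) ((C b * Tz k z).eval w)) →
      Esc (C b * Tz k z) w ∨ Att (C b * Tz k z) w := by
    rintro w (h | h)
    · exact Or.inl h.shift
    · exact Or.inr h.shift
  intro c hcr
  have hcr' : (derivative (Tz k z)).eval c = 0 := by
    rw [derivative_C_mul, eval_mul, eval_C] at hcr
    exact (mul_eq_zero.1 hcr).resolve_left hb
  apply hsh
  by_cases hTc : (Tz k z).eval c = 0
  · rw [hev c, hTc, mul_zero]
    rcases Nat.lt_trichotomy k 1 with hk | hk | hk
    · have hk0 : k = 0 := by omega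
      apply hsh
      obtain ⟨hT0, hlog⟩ := log_T0 (k := k) hz hk0
      rw [hev]
      apply fate_zero hz hk0 hN hb (h0 hk0) (mul_ne_zero hb hT0)
      rw [norm_mul, Real.log_mul (norm_ne_zero_iff.2 hb) (norm_ne_zero_iff.2 hT0), hlog, sub_self,
        abs_zero]
      exact hcard0
    · exfalso
      by_cases hc0 : c = 0
      · -- zero is a simple root
        subst hk hc0
        have hder : (derivative (Tz 1 z)).eval 0 = ∏ i, ((0 : ℂ) - z i) := by
          unfold Tz
          rw [pow_one, derivative_mul, derivative_X, one_mul, eval_add, eval_mul, eval_X, zero_mul,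
            add_zero, eval_prod]
          refine Finset.prod_congr rfl fun i _ => ?_
          simp
        rw [hder] at hcr'
        rw [Finset.prod_eq_zero_iff] at hcr'
        obtain ⟨i, -, hi⟩ := hcr'
        apply hz i
        rw [zero_sub, neg_eq_zero] at hi
        exact hi
      · exact hexc ⟨hk, c, hc0, hTc, hcr'⟩
    · right
      have hT0 : (Tz k z).eval 0 = 0 := by
        rw [Tz_eval, zero_pow (by omega), zero_mul]
      have hfix : (C b * Tz k z).eval 0 = 0 := by rw [hev, hT0, mul_zero]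
      refine ⟨0, hfix, ?_, ?_⟩
      · have h1 : deriv (fun y : ℂ => (C b * Tz k z).eval y) 0 =
            (derivative (C b * Tz k z)).eval 0 := Polynomial.deriv _
        have h2 : (derivative (Tz k z)).eval 0 = 0 := by
          unfold Tz
          obtain ⟨j, hj⟩ : ∃ j, k = j + 2 := ⟨k - 2, by omega⟩
          subst hj
          rw [derivative_mul, derivative_X_pow, eval_add, eval_mul, eval_mul, eval_mul, eval_pow,
            eval_pow, eval_X]
          simp
        rw [h1, derivative_C_mul, eval_mul, h2, mul_zero, norm_zero]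
        exact one_pos
      · have : ∀ m : ℕ, (fun y : ℂ => (C b * Tz k z).eval y)^[m] 0 = 0 := by
          intro m
          exact Function.iterate_fixed (f := fun y : ℂ => (C b * Tz k z).eval y) hfix m
        simp only [this]
        exact tendsto_const_nhds
  · have hg := hc c hcr' hTc
    set q := Real.log ‖(Tz k z).eval c‖ with hq
    have hx0 : Real.log ‖(C b * Tz k z).eval c‖ = Real.log ‖b‖ + q := by
      rw [hev, norm_mul, Real.log_mul (norm_ne_zero_iff.2 hb) (norm_ne_zero_iff.2 hTc)]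
    have hne : (C b * Tz k z).eval c ≠ 0 := by rw [hev]; exact mul_ne_zero hb hTc
    by_cases hd : Dom k (lr z) (Real.log ‖b‖ + q)
    · apply fate_dom hz hN hb hg hd hne
      rw [hx0, sub_self, abs_zero]
      exact hcard0
    · apply hsh
      have hd' := hd
      unfold Dom at hd'
      push Not at hd'
      have hk0 : k = 0 := by omega
      have hfar : ∀ i, 1 ≤ |Real.log ‖(C b * Tz k z).eval c‖ - lr z i| := by
        intro i
        rw [hx0]
        refine le_trans ?_ (hg.1 i)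
        obtain ⟨-, hNN, -⟩ := NN_bounds ι k
        unfold th
        linarith
      have hap := approx (k := k) hz hne hfar
      have hne2 : (C b * Tz k z).eval ((C b * Tz k z).eval c) ≠ 0 := by
        rw [hev]; exact mul_ne_zero hb hap.1
      apply fate_zero hz hk0 hN hb (h0 hk0) hne2
      have hF : F k (lr z) (Real.log ‖(C b * Tz k z).eval c‖) = ∑ i, lr z i :=
        F_low hk0 fun i => by rw [hx0]; exact (hd'.2 i).le
      rw [hF] at hap
      rw [hev, norm_mul, Real.log_mul (norm_ne_zero_iff.2 hb) (norm_ne_zero_iff.2 hap.1)]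
      have e1 : Real.log ‖b‖ + Real.log ‖(Tz k z).eval ((C b * Tz k z).eval c)‖ -
          (Real.log ‖b‖ + ∑ i, lr z i) =
          Real.log ‖(Tz k z).eval ((C b * Tz k z).eval c)‖ - ∑ i, lr z i := by ring
      rw [e1]
      exact hap.2.trans (Er_le hfar)

end Pool.Agent.TH639.UC
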