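import Mathlib
import Pool.Agent.TH639.UC.Block

/-!
# The measure of the hitting parameters in a window
-/

set_option autoImplicit false

open Filter Topology MeasureTheory

set_option linter.unusedSectionVars false

namespace Pool.Agent.TH639.UC

variable {ι : Type*} [Fintype ι] {k : ℕ} {ρ : ι → ℝ}

/-- the constant of the block lemma -/
noncomputable def Cb (N θ : ℝ) : ℝ := 16 * (N + 1) * θ + 3 * θ * N * (N + 1)

lemma dyadic {θ q r : ℝ} (hθ : 0 < θ) (j : ℕ) : ∀ a : ℝ, Ray k ρ q a →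
    8 * ((k : ℝ) + Fintype.card ι + 1) * θ ≤ g k ρ q a 0 →
    volume {s : ℝ | a ≤ s ∧ s ≤ a + (2 ^ j - 1) * g k ρ q a 0 ∧ Hit k ρ θ q r s} ≤
      j * ENNReal.ofReal (Cb ((k : ℝ) + Fintype.card ι) θ) := by
  induction j with
  | zero =>
    intro a _ _
    simp only [pow_zero, sub_self, zero_mul, add_zero, Nat.cast_zero]
    have : {s : ℝ | a ≤ s ∧ s ≤ a ∧ Hit k ρ θ q r s} ⊆ {a} := by
      rintro s ⟨h1, h2, -⟩
      exact le_antisymm h2 h1
    calc _ ≤ volume {a} := measure_mono this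
      _ = 0 := by simp
      _ ≤ 0 := le_rfl
  | succ j ih =>
    intro a hR hG
    have h1N := one_le_N hR
    have hg0 : 0 < g k ρ q a 0 := by
      refine lt_of_lt_of_le ?_ hG
      have : 0 < (k : ℝ) + Fintype.card ι + 1 := by linarith
      positivity
    set a' := a + g k ρ q a 0 with ha'
    have haa' : a ≤ a' := by linarith
    have hR' : Ray k ρ q a' := hR.mono haa'
    have hg' : 2 * g k ρ q a 0 ≤ g k ρ q a' 0 := by
      have := (g_param hR haa' 0).1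
      linarith
    have h1 := ih a' hR' (by linarith)
    have h2 := block (b := a') (r := r) hθ hR hG le_rfl
    have hsub : {s : ℝ | a ≤ s ∧ s ≤ a + (2 ^ (j + 1) - 1) * g k ρ q a 0 ∧ Hit k ρ θ q r s} ⊆
        {s : ℝ | a ≤ s ∧ s ≤ a' ∧ Hit k ρ θ q r s} ∪
        {s : ℝ | a' ≤ s ∧ s ≤ a' + (2 ^ j - 1) * g k ρ q a' 0 ∧ Hit k ρ θ q r s} := by
      rintro s ⟨hs1, hs2, hs3⟩
      rcases le_total s a' with h | h
      · exact Or.inl ⟨hs1, h, hs3⟩
      · refine Or.inr ⟨h, ?_, hs3⟩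
        have h3 : (1 : ℝ) ≤ 2 ^ j := one_le_pow₀ (by norm_num)
        have h4 : ((2 : ℝ) ^ j - 1) * (2 * g k ρ q a 0) ≤ (2 ^ j - 1) * g k ρ q a' 0 :=
          mul_le_mul_of_nonneg_left hg' (by linarith)
        rw [pow_succ] at hs2
        linarith
    refine (measure_mono hsub).trans ((measure_union_le _ _).trans ?_)
    have h3 : ((j + 1 : ℕ) : ENNReal) * ENNReal.ofReal (Cb ((k : ℝ) + Fintype.card ι) θ) =
        ENNReal.ofReal (Cb ((k : ℝ) + Fintype.card ι) θ) +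
          j * ENNReal.ofReal (Cb ((k : ℝ) + Fintype.card ι) θ) := by
      push_cast; ring
    rw [h3]
    exact add_le_add h2 h1

lemma isClosed_ray (q G : ℝ) :
    IsClosed {s : ℝ | Dom k ρ (s + q) ∧ G ≤ g k ρ q s 0} := by
  have h1 : IsClosed {s : ℝ | Dom k ρ (s + q)} := by
    unfold Dom
    by_cases hk : 1 ≤ k
    · simp [hk]
    · simp only [hk, false_or]
      have : {s : ℝ | ∃ i, ρ i ≤ s + q} = ⋃ i, {s : ℝ | ρ i ≤ s + q} := by
        ext s; simp
      rw [this]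
      exact isClosed_iUnion_of_finite fun i => isClosed_le continuous_const (by fun_prop)
  exact h1.inter (isClosed_le continuous_const (continuous_g q 0))

/-- the hitting parameters in a window -/
theorem window {θ G q r : ℝ} (hθ : 0 < θ) (hG1 : 1 ≤ G)
    (hG : 8 * ((k : ℝ) + Fintype.card ι + 1) * θ ≤ G) (w K : ℝ) (hK : 0 ≤ K) :
    volume {s : ℝ | (w ≤ s ∧ s ≤ w + K) ∧ (Dom k ρ (s + q) ∧ G ≤ g k ρ q s 0) ∧
      Hit k ρ θ q r s} ≤
      ENNReal.ofReal ((Real.logb 2 (1 + K) + 1) * Cb ((k : ℝ) + Fintype.card ι) θ) := by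
  set D : Set ℝ := {s : ℝ | Dom k ρ (s + q) ∧ G ≤ g k ρ q s 0} with hD
  rcases (Set.Icc w (w + K) ∩ D).eq_empty_or_nonempty with hemp | hne
  · have : {s : ℝ | (w ≤ s ∧ s ≤ w + K) ∧ (Dom k ρ (s + q) ∧ G ≤ g k ρ q s 0) ∧
      Hit k ρ θ q r s} ⊆ ∅ := by
      rintro s ⟨h1, h2, -⟩
      rw [← hemp]
      exact ⟨h1, h2⟩
    calc _ ≤ volume (∅ : Set ℝ) := measure_mono this
      _ ≤ _ := by simp
  · have hcomp : IsCompact (Set.Icc w (w + K) ∩ D) :=
      isCompact_Icc.inter_right (isClosed_ray q G)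
    have ha := hcomp.sInf_mem hne
    set a := sInf (Set.Icc w (w + K) ∩ D) with had
    have hR : Ray k ρ q a := ⟨ha.2.1, by linarith [ha.2.2]⟩
    have h1N := one_le_N hR
    set j := ⌈Real.logb 2 (1 + K)⌉₊ with hj
    have hlog0 : 0 ≤ Real.logb 2 (1 + K) := Real.logb_nonneg (by norm_num) (by linarith)
    have hjK : 1 + K ≤ 2 ^ j := by
      have h1 : Real.logb 2 (1 + K) ≤ j := Nat.le_ceil _
      have h2 := (Real.logb_le_iff_le_rpow (b := 2) (by norm_num) (by linarith)).1 h1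
      rwa [Real.rpow_natCast] at h2
    have hsub : {s : ℝ | (w ≤ s ∧ s ≤ w + K) ∧ (Dom k ρ (s + q) ∧ G ≤ g k ρ q s 0) ∧
      Hit k ρ θ q r s} ⊆
      {s : ℝ | a ≤ s ∧ s ≤ a + (2 ^ j - 1) * g k ρ q a 0 ∧ Hit k ρ θ q r s} := by
      rintro s ⟨h1, h2, h3⟩
      refine ⟨csInf_le ⟨w, fun x hx => hx.1.1⟩ ⟨h1, h2⟩, ?_, h3⟩
      have e1 : (2 ^ j - 1 : ℝ) * 1 ≤ (2 ^ j - 1) * g k ρ q a 0 :=
        mul_le_mul_of_nonneg_left (hG1.trans ha.2.2) (by linarith)
      linarith [ha.1.1, h1.2]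
    refine (measure_mono hsub).trans ((dyadic hθ j a hR (hG.trans ha.2.2)).trans ?_)
    have hj2 : (j : ℝ) ≤ Real.logb 2 (1 + K) + 1 := (Nat.ceil_lt_add_one hlog0).le
    have hC0 : 0 ≤ Cb ((k : ℝ) + Fintype.card ι) θ := by unfold Cb; positivity
    have e1 : (j : ENNReal) = ENNReal.ofReal (j : ℝ) := by simp
    rw [e1, ← ENNReal.ofReal_mul (by positivity)]
    apply ENNReal.ofReal_le_ofReal
    exact mul_le_mul_of_nonneg_right hj2 hC0

end Pool.Agent.TH639.UC
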