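import Mathlib
import Pool.Agent.TH639.UC.Win
import Pool.Agent.TH639.UC.Dyn

/-!
# The measure of the bad parameters
-/

set_option autoImplicit false

open Filter Topology MeasureTheory Polynomial

set_option linter.unusedSectionVars false

namespace Pool.Agent.TH639.UC

open Pool.Agent.W751.CD

variable {ι : Type*} [Fintype ι] {k : ℕ} {ρ : ι → ℝ}

/-- the bound for one start value -/
noncomputable def M1 (N x : ℝ) : ℝ :=
  2 * (20 * (N + 1)) * N + 2 * (160 * (N + 1) ^ 2) + N * (x * Cb N (20 * (N + 1)))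

lemma vol_alpha (q : ℝ) : volume {s : ℝ | ∃ i, |s + q - ρ i| < th ι k} ≤
    ENNReal.ofReal (2 * th ι k * NN ι k) := by
  obtain ⟨hcard, hNN, -⟩ := NN_bounds ι k
  have hth : 0 ≤ th ι k := by unfold th; linarith
  have h1 : {s : ℝ | ∃ i, |s + q - ρ i| < th ι k} ⊆
      ⋃ i, Set.Ioo (ρ i - q - th ι k) (ρ i - q + th ι k) := by
    rintro s ⟨i, hi⟩
    rw [Set.mem_iUnion]
    refine ⟨i, ?_⟩
    rw [abs_lt] at hi
    exact ⟨by linarith, by linarith⟩
  calc volume {s : ℝ | ∃ i, |s + q - ρ i| < th ι k}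
      ≤ volume (⋃ i, Set.Ioo (ρ i - q - th ι k) (ρ i - q + th ι k)) := measure_mono h1
    _ ≤ ∑ i, volume (Set.Ioo (ρ i - q - th ι k) (ρ i - q + th ι k)) :=
        measure_iUnion_fintype_le _ _
    _ = ∑ _i : ι, ENNReal.ofReal (2 * th ι k) := by
        refine Finset.sum_congr rfl fun i _ => ?_
        rw [Real.volume_Ioo]; congr 1; ring
    _ = ENNReal.ofReal (Fintype.card ι * (2 * th ι k)) := by
        rw [Finset.sum_const, Finset.card_univ, nsmul_eq_mul,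
          ENNReal.ofReal_mul (Nat.cast_nonneg (Fintype.card ι)), ENNReal.ofReal_natCast]
    _ ≤ _ := by
        apply ENNReal.ofReal_le_ofReal
        have : (Fintype.card ι : ℝ) * (2 * th ι k) ≤ NN ι k * (2 * th ι k) :=
          mul_le_mul_of_nonneg_right hcard (by linarith)
        linarith

lemma vol_beta (q : ℝ) : volume {s : ℝ | Dom k ρ (s + q) ∧ |g k ρ q s 0| < G0 ι k} ≤
    ENNReal.ofReal (2 * G0 ι k) := by
  refine (Real.volume_le_diam _).trans (Metric.ediam_le ?_)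
  have key : ∀ s s' : ℝ, Dom k ρ (s + q) → |g k ρ q s 0| < G0 ι k → |g k ρ q s' 0| < G0 ι k →
      s ≤ s' → edist s s' ≤ ENNReal.ofReal (2 * G0 ι k) := by
    intro s s' hd h1 h2 hs
    rw [edist_comm, edist_dist, Real.dist_eq, abs_of_nonneg (by linarith)]
    apply ENNReal.ofReal_le_ofReal
    have h3 := F_step hd (show s + q ≤ s' + q by linarith)
    have e1 : g k ρ q s 0 = F k ρ (s + q) + s - (s + q) := rfl
    have e2 : g k ρ q s' 0 = F k ρ (s' + q) + s' - (s' + q) := rfl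
    rw [e1, abs_lt] at h1
    rw [e2, abs_lt] at h2
    linarith
  rintro s ⟨h1, h2⟩ s' ⟨h3, h4⟩
  rcases le_total s s' with h | h
  · exact key s s' h1 h2 h4 h
  · rw [edist_comm]; exact key s' s h3 h4 h2 h

lemma vol_gamma (q w K : ℝ) (hK : 0 ≤ K) :
    volume {s : ℝ | (w ≤ s ∧ s ≤ w + K) ∧ (Dom k ρ (s + q) ∧ G0 ι k ≤ g k ρ q s 0) ∧
      ∃ i, Hit k ρ (th ι k) q (ρ i) s} ≤
    ENNReal.ofReal (NN ι k * ((Real.logb 2 (1 + K) + 1) * Cb (NN ι k) (th ι k))) := by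
  obtain ⟨hcard, hNN, -⟩ := NN_bounds ι k
  have hth : 0 < th ι k := by unfold th; linarith
  have hlog0 : 0 ≤ Real.logb 2 (1 + K) := Real.logb_nonneg (by norm_num) (by linarith)
  have hC0 : 0 ≤ Cb (NN ι k) (th ι k) := by unfold Cb; positivity
  have h1 : {s : ℝ | (w ≤ s ∧ s ≤ w + K) ∧ (Dom k ρ (s + q) ∧ G0 ι k ≤ g k ρ q s 0) ∧
      ∃ i, Hit k ρ (th ι k) q (ρ i) s} ⊆
      ⋃ i, {s : ℝ | (w ≤ s ∧ s ≤ w + K) ∧ (Dom k ρ (s + q) ∧ G0 ι k ≤ g k ρ q s 0) ∧
        Hit k ρ (th ι k) q (ρ i) s} := by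
    rintro s ⟨h1, h2, i, hi⟩
    rw [Set.mem_iUnion]
    exact ⟨i, h1, h2, hi⟩
  refine (measure_mono h1).trans ((measure_iUnion_fintype_le _ _).trans ?_)
  calc ∑ i, volume {s : ℝ | (w ≤ s ∧ s ≤ w + K) ∧ (Dom k ρ (s + q) ∧ G0 ι k ≤ g k ρ q s 0) ∧
        Hit k ρ (th ι k) q (ρ i) s}
      ≤ ∑ _i : ι, ENNReal.ofReal ((Real.logb 2 (1 + K) + 1) * Cb (NN ι k) (th ι k)) := by
        apply Finset.sum_le_sum
        intro i _
        refine window hth (by unfold G0; nlinarith) ?_ w K hK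
        unfold G0 th
        have : ((k : ℝ) + Fintype.card ι) = NN ι k := rfl
        rw [this]
        nlinarith
    _ = ENNReal.ofReal (Fintype.card ι * ((Real.logb 2 (1 + K) + 1) * Cb (NN ι k) (th ι k))) := by
        rw [Finset.sum_const, Finset.card_univ, nsmul_eq_mul,
          ENNReal.ofReal_mul (Nat.cast_nonneg (Fintype.card ι)), ENNReal.ofReal_natCast]
    _ ≤ _ := by
        apply ENNReal.ofReal_le_ofReal
        exact mul_le_mul_of_nonneg_right hcard (mul_nonneg (by linarith) hC0)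

lemma not_good {q s : ℝ} (h : ¬ Good k ρ q s) : (∃ i, |s + q - ρ i| < th ι k) ∨
    (Dom k ρ (s + q) ∧ |g k ρ q s 0| < G0 ι k) ∨
    ((Dom k ρ (s + q) ∧ G0 ι k ≤ g k ρ q s 0) ∧ ∃ i, Hit k ρ (th ι k) q (ρ i) s) := by
  by_contra hcon
  push Not at hcon
  obtain ⟨h1, h2, h3⟩ := hcon
  apply h
  refine ⟨h1, fun hd => ?_⟩
  rcases le_or_gt (g k ρ q s 0) (-G0 ι k) with h4 | h4
  · exact Or.inl h4
  · right
    have h5 : G0 ι k ≤ g k ρ q s 0 := by
      have h6 := h2 hd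
      by_contra hcon
      push Not at hcon
      have : |g k ρ q s 0| < G0 ι k := abs_lt.2 ⟨h4, hcon⟩
      linarith
    exact ⟨h5, fun i => h3 ⟨hd, h5⟩ i⟩

/-- one start value, windows -/
theorem vol_bad (q w K : ℝ) (hK : 0 ≤ K) :
    volume {s : ℝ | (w ≤ s ∧ s ≤ w + K) ∧ ¬ Good k ρ q s} ≤
      ENNReal.ofReal (M1 (NN ι k) (Real.logb 2 (1 + K) + 1)) := by
  obtain ⟨hcard, hNN, -⟩ := NN_bounds ι k
  have hth : 0 < th ι k := by unfold th; linarith
  have hlog0 : 0 ≤ Real.logb 2 (1 + K) := Real.logb_nonneg (by norm_num) (by linarith)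
  have hC0 : 0 ≤ Cb (NN ι k) (th ι k) := by unfold Cb; positivity
  have hG : 0 ≤ G0 ι k := by unfold G0; positivity
  have hsub : {s : ℝ | (w ≤ s ∧ s ≤ w + K) ∧ ¬ Good k ρ q s} ⊆
      ({s : ℝ | ∃ i, |s + q - ρ i| < th ι k} ∪
        {s : ℝ | Dom k ρ (s + q) ∧ |g k ρ q s 0| < G0 ι k}) ∪
      {s : ℝ | (w ≤ s ∧ s ≤ w + K) ∧ (Dom k ρ (s + q) ∧ G0 ι k ≤ g k ρ q s 0) ∧
      ∃ i, Hit k ρ (th ι k) q (ρ i) s} := by
    rintro s ⟨h1, h2⟩
    rcases not_good h2 with h | h | h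
    · exact Or.inl (Or.inl h)
    · exact Or.inl (Or.inr h)
    · exact Or.inr ⟨h1, h.1, h.2⟩
  refine (measure_mono hsub).trans ((measure_union_le _ _).trans ?_)
  have h1 := (measure_union_le {s : ℝ | ∃ i, |s + q - ρ i| < th ι k}
        {s : ℝ | Dom k ρ (s + q) ∧ |g k ρ q s 0| < G0 ι k}).trans
        (add_le_add (vol_alpha (k := k) (ρ := ρ) q) (vol_beta (k := k) (ρ := ρ) q))
  refine (add_le_add h1 (vol_gamma q w K hK)).trans ?_
  have hp : 0 ≤ 2 * th ι k * NN ι k := by positivity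
  have hp2 : 0 ≤ 2 * G0 ι k := by positivity
  have hp3 : 0 ≤ NN ι k * ((Real.logb 2 (1 + K) + 1) * Cb (NN ι k) (th ι k)) :=
    mul_nonneg hNN (mul_nonneg (by linarith) hC0)
  rw [← ENNReal.ofReal_add hp hp2, ← ENNReal.ofReal_add (by linarith) hp3]
  apply ENNReal.ofReal_le_ofReal
  unfold M1
  have e1 : th ι k = 20 * (NN ι k + 1) := rfl
  have e2 : G0 ι k = 160 * (NN ι k + 1) ^ 2 := rfl
  rw [e1, e2]

/-- above the point `r` there are no hits -/
lemma no_hit {θ q s r : ℝ} (hR : Ray k ρ q s) (hθ : 0 < θ)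
    (hG : 8 * ((k : ℝ) + Fintype.card ι + 1) * θ ≤ g k ρ q s 0) (hr : r + θ < s + q) :
    ¬ Hit k ρ θ q r s := by
  rintro ⟨m, hm⟩
  have h1N := one_le_N hR
  have hg0 : 0 < g k ρ q s 0 := by
    refine lt_of_lt_of_le ?_ hG
    have : 0 < (k : ℝ) + Fintype.card ι + 1 := by linarith
    positivity
  have h2 := (abs_le.1 hm).2
  rcases Nat.eq_zero_or_pos m with h | h
  · subst h
    rw [div_self hg0.ne', mul_one] at h2
    have : Y k ρ q s 0 = s + q := rfl
    linarith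
  · obtain ⟨n, rfl⟩ : ∃ n, m = n + 1 := ⟨m - 1, by omega⟩
    have h3 := g_succ_le hR n
    have h4 : g k ρ q s n = Y k ρ q s (n + 1) - Y k ρ q s n := rfl
    have h5 : Y k ρ q s 0 ≤ Y k ρ q s n := Y_mono hR (Nat.zero_le n)
    have h6 : Y k ρ q s 0 = s + q := rfl
    have h7 : 0 < g k ρ q s n := lt_of_lt_of_le hg0 (ray_all hR n).2
    have h8 : θ * (g k ρ q s (n + 1) / g k ρ q s 0) ≤ g k ρ q s n := by
      rw [← mul_div_assoc, div_le_iff₀ hg0]
      calc θ * g k ρ q s (n + 1) ≤ θ * (((k : ℝ) + Fintype.card ι) * g k ρ q s n) :=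
            mul_le_mul_of_nonneg_left h3 hθ.le
        _ ≤ g k ρ q s n * (8 * ((k : ℝ) + Fintype.card ι + 1) * θ) := by
            have e1 : θ * (((k : ℝ) + Fintype.card ι) * g k ρ q s n) =
              g k ρ q s n * θ * ((k : ℝ) + Fintype.card ι) := by ring
            have e2 : g k ρ q s n * (8 * ((k : ℝ) + Fintype.card ι + 1) * θ) =
              g k ρ q s n * θ * (8 * ((k : ℝ) + Fintype.card ι + 1)) := by ring
            rw [e1, e2]
            apply mul_le_mul_of_nonneg_left _ (by positivity)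
            linarith
        _ ≤ g k ρ q s n * g k ρ q s 0 := mul_le_mul_of_nonneg_left hG h7.le
    linarith

/-- one start value, the whole line, if zero is not a root -/
theorem vol_bad_all (hk : k = 0) (hN : 1 ≤ k + Fintype.card ι) (q Λ : ℝ)
    (hΛ : ∀ i j, ρ i ≤ ρ j + Λ) :
    volume {s : ℝ | ¬ Good k ρ q s} ≤
      ENNReal.ofReal (M1 (NN ι k) (Real.logb 2 (1 + (Λ + th ι k)) + 1)) := by
  obtain ⟨hcard, hNN, -⟩ := NN_bounds ι k
  have hth : 0 < th ι k := by unfold th; linarith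
  have hne : Nonempty ι := by
    rw [hk, zero_add] at hN
    exact Fintype.card_pos_iff.1 hN
  obtain ⟨i₀⟩ := hne
  have hΛ0 : 0 ≤ Λ := by linarith [hΛ i₀ i₀]
  have hlog0 : 0 ≤ Real.logb 2 (1 + (Λ + th ι k)) := Real.logb_nonneg (by norm_num) (by linarith)
  have hC0 : 0 ≤ Cb (NN ι k) (th ι k) := by unfold Cb; positivity
  have hG : 0 ≤ G0 ι k := by unfold G0; positivity
  have hgam : volume {s : ℝ | (Dom k ρ (s + q) ∧ G0 ι k ≤ g k ρ q s 0) ∧
      ∃ i, Hit k ρ (th ι k) q (ρ i) s} ≤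
      ENNReal.ofReal (NN ι k * ((Real.logb 2 (1 + (Λ + th ι k)) + 1) *
        Cb (NN ι k) (th ι k))) := by
    have h1 : {s : ℝ | (Dom k ρ (s + q) ∧ G0 ι k ≤ g k ρ q s 0) ∧
      ∃ i, Hit k ρ (th ι k) q (ρ i) s} ⊆
      ⋃ i, {s : ℝ | (ρ i - q - Λ ≤ s ∧ s ≤ ρ i - q - Λ + (Λ + th ι k)) ∧
        (Dom k ρ (s + q) ∧ G0 ι k ≤ g k ρ q s 0) ∧ Hit k ρ (th ι k) q (ρ i) s} := by
      rintro s ⟨⟨h1, h2⟩, i, hi⟩
      rw [Set.mem_iUnion]
      refine ⟨i, ⟨?_, ?_⟩, ⟨h1, h2⟩, hi⟩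
      · rcases h1 with h1 | ⟨j, hj⟩
        · omega
        · linarith [hΛ i j]
      · by_contra hcon
        push Not at hcon
        refine no_hit ⟨h1, by linarith⟩ hth ?_ (by linarith) hi
        refine le_trans ?_ h2
        unfold G0 th
        have : ((k : ℝ) + Fintype.card ι) = NN ι k := rfl
        rw [this]
        nlinarith
    refine (measure_mono h1).trans ((measure_iUnion_fintype_le _ _).trans ?_)
    calc ∑ i, volume {s : ℝ | (ρ i - q - Λ ≤ s ∧ s ≤ ρ i - q - Λ + (Λ + th ι k)) ∧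
        (Dom k ρ (s + q) ∧ G0 ι k ≤ g k ρ q s 0) ∧ Hit k ρ (th ι k) q (ρ i) s}
        ≤ ∑ _i : ι, ENNReal.ofReal ((Real.logb 2 (1 + (Λ + th ι k)) + 1) *
            Cb (NN ι k) (th ι k)) := by
          apply Finset.sum_le_sum
          intro i _
          refine window hth (by unfold G0; nlinarith) ?_ _ _ (by linarith)
          unfold G0 th
          have : ((k : ℝ) + Fintype.card ι) = NN ι k := rfl
          rw [this]
          nlinarith
      _ = ENNReal.ofReal (Fintype.card ι * ((Real.logb 2 (1 + (Λ + th ι k)) + 1) *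
            Cb (NN ι k) (th ι k))) := by
          rw [Finset.sum_const, Finset.card_univ, nsmul_eq_mul,
            ENNReal.ofReal_mul (Nat.cast_nonneg (Fintype.card ι)), ENNReal.ofReal_natCast]
      _ ≤ _ := by
          apply ENNReal.ofReal_le_ofReal
          exact mul_le_mul_of_nonneg_right hcard (mul_nonneg (by linarith) hC0)
  have hsub : {s : ℝ | ¬ Good k ρ q s} ⊆
      ({s : ℝ | ∃ i, |s + q - ρ i| < th ι k} ∪
        {s : ℝ | Dom k ρ (s + q) ∧ |g k ρ q s 0| < G0 ι k}) ∪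
      {s : ℝ | (Dom k ρ (s + q) ∧ G0 ι k ≤ g k ρ q s 0) ∧
      ∃ i, Hit k ρ (th ι k) q (ρ i) s} := by
    intro s h2
    rcases not_good h2 with h | h | h
    · exact Or.inl (Or.inl h)
    · exact Or.inl (Or.inr h)
    · exact Or.inr ⟨h.1, h.2⟩
  refine (measure_mono hsub).trans ((measure_union_le _ _).trans ?_)
  have h1 := (measure_union_le {s : ℝ | ∃ i, |s + q - ρ i| < th ι k}
        {s : ℝ | Dom k ρ (s + q) ∧ |g k ρ q s 0| < G0 ι k}).trans
        (add_le_add (vol_alpha (k := k) (ρ := ρ) q) (vol_beta (k := k) (ρ := ρ) q))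
  refine (add_le_add h1 hgam).trans ?_
  have hp : 0 ≤ 2 * th ι k * NN ι k := by positivity
  have hp2 : 0 ≤ 2 * G0 ι k := by positivity
  have hp3 : 0 ≤ NN ι k * ((Real.logb 2 (1 + (Λ + th ι k)) + 1) * Cb (NN ι k) (th ι k)) :=
    mul_nonneg hNN (mul_nonneg (by linarith) hC0)
  rw [← ENNReal.ofReal_add hp hp2, ← ENNReal.ofReal_add (by linarith) hp3]
  apply ENNReal.ofReal_le_ofReal
  unfold M1
  have e1 : th ι k = 20 * (NN ι k + 1) := rfl
  have e2 : G0 ι k = 160 * (NN ι k + 1) ^ 2 := rfl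
  rw [e1, e2]

section poly

variable {z : ι → ℂ}

/-- the condition which excludes critical points mapped to the fixed point zero of multiplicity
one -/
def Exc (k : ℕ) (z : ι → ℂ) : Prop :=
  k = 1 ∧ ∃ c : ℂ, c ≠ 0 ∧ (Tz k z).eval c = 0 ∧ (derivative (Tz k z)).eval c = 0

lemma Tz_natDegree : (Tz k z).natDegree = k + Fintype.card ι := by
  unfold Tz
  rw [natDegree_mul, natDegree_X_pow, natDegree_prod]
  · simp
  · intro i _; exact X_sub_C_ne_zero _
  · exact pow_ne_zero _ X_ne_zero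
  · exact Finset.prod_ne_zero_iff.2 fun i _ => X_sub_C_ne_zero _

/-- the union bound over all start values -/
lemma union_bound (hz : ∀ i, z i ≠ 0) (hN : 2 ≤ k + Fintype.card ι) (hexc : ¬ Exc k z)
    (W : Set ℝ) (M : ENNReal) (hM : ∀ q, volume {s : ℝ | s ∈ W ∧ ¬ Good k (lr z) q s} ≤ M) :
    volume {s : ℝ | s ∈ W ∧ ∃ b : ℂ, b ≠ 0 ∧ Real.log ‖b‖ = s ∧ ¬ Hyp (C b * Tz k z)} ≤
      ((k + Fintype.card ι : ℕ) : ENNReal) * M := by
  classical
  set R : Finset ℂ := (derivative (Tz k z)).roots.toFinset with hR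
  have hder : derivative (Tz k z) ≠ 0 := by
    intro h
    have h1 := derivative_eq_zero.1 h
    rw [Tz_natDegree] at h1
    omega
  have hcard : R.card + 1 ≤ k + Fintype.card ι := by
    have h1 : R.card ≤ (derivative (Tz k z)).natDegree :=
      (Multiset.toFinset_card_le _).trans (card_roots' _)
    have h2 := natDegree_derivative_lt (p := Tz k z) (by rw [Tz_natDegree]; omega)
    rw [Tz_natDegree] at h2
    omega
  have hsub : {s : ℝ | s ∈ W ∧ ∃ b : ℂ, b ≠ 0 ∧ Real.log ‖b‖ = s ∧ ¬ Hyp (C b * Tz k z)} ⊆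
      (⋃ c ∈ R, {s : ℝ | s ∈ W ∧ ¬ Good k (lr z) (Real.log ‖(Tz k z).eval c‖) s}) ∪
        {s : ℝ | s ∈ W ∧ ¬ Good k (lr z) (∑ i, lr z i) s} := by
    rintro s ⟨hW, b, hb, rfl, hnot⟩
    by_contra hcon
    rw [Set.mem_union, not_or] at hcon
    obtain ⟨h1, h2⟩ := hcon
    apply hnot
    apply hyp_of_good hz hN hexc hb
    · intro _
      by_contra h3
      exact h2 ⟨hW, h3⟩
    · intro c hc1 hc2
      by_contra h3
      apply h1
      rw [Set.mem_iUnion₂]
      refine ⟨c, ?_, hW, h3⟩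
      rw [hR, Multiset.mem_toFinset, mem_roots hder]
      exact hc1
  refine (measure_mono hsub).trans ((measure_union_le _ _).trans ?_)
  have h1 : volume (⋃ c ∈ R, {s : ℝ | s ∈ W ∧ ¬ Good k (lr z) (Real.log ‖(Tz k z).eval c‖) s}) ≤
      R.card * M := by
    refine (measure_biUnion_finset_le _ _).trans ?_
    refine (Finset.sum_le_sum fun c _ => hM (Real.log ‖(Tz k z).eval c‖)).trans ?_
    rw [Finset.sum_const, nsmul_eq_mul]
  refine (add_le_add h1 (hM _)).trans ?_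
  have h2 : (R.card : ENNReal) * M + M = ((R.card + 1 : ℕ) : ENNReal) * M := by
    push_cast; ring
  rw [h2]
  gcongr

end poly

end Pool.Agent.TH639.UC
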