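import Mathlib
import Pool.Agent.TH639.UC.Meas

/-!
# Uniform coarse density of hyperbolicity in the families `λ T`
-/

set_option autoImplicit false

open Filter Topology MeasureTheory Polynomial

namespace Pool.Agent.TH639.UC

open Pool.Agent.W751.CD

lemma exists_Tz (T : ℂ[X]) : ∃ (m : Multiset ℂ) (k : ℕ), (∀ x ∈ m, x ≠ 0) ∧
    (∀ x ∈ m, x ∈ T.roots) ∧ T = C T.leadingCoeff * Tz k (fun i : m => (i : ℂ)) := by
  classical
  refine ⟨T.roots.filter (fun x => ¬ x = 0), T.roots.count 0, ?_, ?_, ?_⟩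
  · intro x hx; exact (Multiset.mem_filter.1 hx).2
  · intro x hx; exact (Multiset.mem_filter.1 hx).1
  · have h1 := (IsAlgClosed.splits T).eq_prod_roots
    conv_lhs => rw [h1]
    congr 1
    conv_lhs => rw [← Multiset.filter_add_not (fun x => x = 0) T.roots]
    rw [Multiset.map_add, Multiset.prod_add, Multiset.filter_eq', Multiset.map_replicate,
      Multiset.prod_replicate, C_0, sub_zero]
    unfold Tz
    congr 1
    rw [Finset.prod, Multiset.map_univ (T.roots.filter (fun x => ¬ x = 0)) (fun x => X - C x)]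

lemma card_Tz {T : ℂ[X]} {m : Multiset ℂ} {k : ℕ} (hT : T ≠ 0)
    (h : T = C T.leadingCoeff * Tz k (fun i : m => (i : ℂ))) :
    k + Fintype.card m = T.natDegree := by
  have hl : T.leadingCoeff ≠ 0 := leadingCoeff_ne_zero.2 hT
  have h1 : T.natDegree = (C T.leadingCoeff * Tz k (fun i : m => (i : ℂ))).natDegree := by
    rw [← h]
  rw [h1, natDegree_C_mul hl, Tz_natDegree]

/-- the exceptional polynomials -/
def ExcT (T : ℂ[X]) : Prop :=
  T.eval 0 = 0 ∧ (derivative T).eval 0 ≠ 0 ∧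
    ∃ c : ℂ, c ≠ 0 ∧ T.eval c = 0 ∧ (derivative T).eval c = 0

lemma exc_of {T : ℂ[X]} {m : Multiset ℂ} {k : ℕ} (hT : T ≠ 0) (hm : ∀ x ∈ m, x ≠ 0)
    (h : T = C T.leadingCoeff * Tz k (fun i : m => (i : ℂ)))
    (he : Exc k (fun i : m => (i : ℂ))) : ExcT T := by
  have hl : T.leadingCoeff ≠ 0 := leadingCoeff_ne_zero.2 hT
  obtain ⟨hk, c, hc0, hc1, hc2⟩ := he
  subst hk
  have hz : ∀ i : m, (i : ℂ) ≠ 0 := fun i => hm _ Multiset.coe_mem
  refine ⟨?_, ?_, c, hc0, ?_, ?_⟩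
  · rw [h, eval_mul, Tz_eval]; simp
  · rw [h, derivative_C_mul, eval_mul, eval_C]
    apply mul_ne_zero hl
    have hder : (derivative (Tz 1 (fun i : m => (i : ℂ)))).eval 0 =
        ∏ i : m, ((0 : ℂ) - (i : ℂ)) := by
      unfold Tz
      rw [pow_one, derivative_mul, derivative_X, one_mul, eval_add, eval_mul, eval_X, zero_mul,
        add_zero, eval_prod]
      refine Finset.prod_congr rfl fun i _ => ?_
      simp
    rw [hder, Finset.prod_ne_zero_iff]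
    intro i _
    rw [zero_sub, neg_ne_zero]
    exact hz i
  · rw [h, eval_mul, hc1, mul_zero]
  · rw [h, derivative_C_mul, eval_mul, hc2, mul_zero]

/-- reduction of the bad set of `T` to the one of the monic polynomial -/
lemma reduce {T : ℂ[X]} {m : Multiset ℂ} {k : ℕ} (hT : T ≠ 0)
    (h : T = C T.leadingCoeff * Tz k (fun i : m => (i : ℂ))) (W : Set ℝ) :
    volume {s : ℝ | s + Real.log ‖T.leadingCoeff‖ ∈ W ∧
      ∃ u : ℂ, ‖u‖ = 1 ∧ ¬ Hyp (C ((Real.exp s : ℝ) * u) * T)} ≤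
    volume {s : ℝ | s ∈ W ∧ ∃ b : ℂ, b ≠ 0 ∧ Real.log ‖b‖ = s ∧
      ¬ Hyp (C b * Tz k (fun i : m => (i : ℂ)))} := by
  have hl : T.leadingCoeff ≠ 0 := leadingCoeff_ne_zero.2 hT
  have h1 : {s : ℝ | s + Real.log ‖T.leadingCoeff‖ ∈ W ∧
      ∃ u : ℂ, ‖u‖ = 1 ∧ ¬ Hyp (C ((Real.exp s : ℝ) * u) * T)} ⊆
      (fun x : ℝ => x + Real.log ‖T.leadingCoeff‖) ⁻¹'
        {s : ℝ | s ∈ W ∧ ∃ b : ℂ, b ≠ 0 ∧ Real.log ‖b‖ = s ∧
        ¬ Hyp (C b * Tz k (fun i : m => (i : ℂ)))} := by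
    rintro s ⟨hs, u, hu, hnot⟩
    have hu0 : u ≠ 0 := by
      rw [← norm_ne_zero_iff, hu]; exact one_ne_zero
    have hes : ((Real.exp s : ℝ) : ℂ) ≠ 0 := by exact_mod_cast (Real.exp_pos s).ne'
    refine ⟨hs, ((Real.exp s : ℝ) * u) * T.leadingCoeff, ?_, ?_, ?_⟩
    · exact mul_ne_zero (mul_ne_zero hes hu0) hl
    · rw [norm_mul, norm_mul, hu, mul_one, Complex.norm_real, Real.norm_eq_abs,
        abs_of_pos (Real.exp_pos s), Real.log_mul (Real.exp_pos s).ne' (norm_ne_zero_iff.2 hl),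
        Real.log_exp]
    · rw [C_mul, mul_assoc (C ((Real.exp s : ℝ) * u : ℂ)), ← h]
      exact hnot
  refine (measure_mono h1).trans ?_
  rw [measure_preimage_add_right]

lemma bound_window {N : ℕ} (hN : 2 ≤ N) {K : ℝ} (hK : 0 ≤ K) :
    M1 (N : ℝ) (Real.logb 2 (1 + K) + 1) ≤ 1000 * (N : ℝ) ^ 4 * (1 + Real.log (1 + K)) := by
  have hN2 : (2 : ℝ) ≤ N := by exact_mod_cast hN
  have hl0 : 0 ≤ Real.log (1 + K) := Real.log_nonneg (by linarith)
  have hx : Real.logb 2 (1 + K) ≤ 1.4428 * Real.log (1 + K) := by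
    unfold Real.logb
    have h2 := Real.log_two_gt_d9
    rw [div_le_iff₀ (by linarith)]
    nlinarith
  have hx0 : 0 ≤ Real.logb 2 (1 + K) := Real.logb_nonneg (by norm_num) (by linarith)
  unfold M1 Cb
  set n : ℝ := (N : ℝ) with hn
  set x := Real.logb 2 (1 + K)
  set l := Real.log (1 + K)
  have e1 : 16 * (n + 1) * (20 * (n + 1)) + 3 * (20 * (n + 1)) * n * (n + 1) ≤ 495 * n ^ 3 := by
    nlinarith [sq_nonneg (n - 2), mul_nonneg (by linarith : (0:ℝ) ≤ n - 2) (by linarith : (0:ℝ) ≤ n),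
      mul_nonneg (mul_nonneg (by linarith : (0:ℝ) ≤ n - 2) (by linarith : (0:ℝ) ≤ n)) (by linarith : (0:ℝ) ≤ n)]
  have e2 : 2 * (20 * (n + 1)) * n + 2 * (160 * (n + 1) ^ 2) ≤ 195 * n ^ 4 := by
    nlinarith [sq_nonneg (n - 2), mul_nonneg (by linarith : (0:ℝ) ≤ n - 2) (by linarith : (0:ℝ) ≤ n),
      mul_nonneg (mul_nonneg (by linarith : (0:ℝ) ≤ n - 2) (by linarith : (0:ℝ) ≤ n)) (by linarith : (0:ℝ) ≤ n),
      mul_nonneg (mul_nonneg (mul_nonneg (by linarith : (0:ℝ) ≤ n - 2) (by linarith : (0:ℝ) ≤ n)) (by linarith : (0:ℝ) ≤ n)) (by linarith : (0:ℝ) ≤ n)]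
  have e3 : n * ((x + 1) * (16 * (n + 1) * (20 * (n + 1)) + 3 * (20 * (n + 1)) * n * (n + 1))) ≤
      n * ((1.4428 * l + 1) * (495 * n ^ 3)) := by
    apply mul_le_mul_of_nonneg_left _ (by linarith)
    apply mul_le_mul (by linarith) e1 (by positivity) (by positivity)
  have e4 : 0 ≤ n ^ 4 * l := by positivity
  have e5 : 0 ≤ n ^ 4 := by positivity
  nlinarith

lemma bound_all {N : ℕ} (hN : 2 ≤ N) {Λ : ℝ} (hΛ : 0 ≤ Λ) :
    M1 (N : ℝ) (Real.logb 2 (1 + (Λ + 20 * ((N : ℝ) + 1))) + 1) ≤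
      2000 * (N : ℝ) ^ 5 * (1 + Real.log (1 + Λ)) := by
  have hN2 : (2 : ℝ) ≤ N := by exact_mod_cast hN
  have hl0 : 0 ≤ Real.log (1 + Λ) := Real.log_nonneg (by linarith)
  have hlog : Real.log (1 + (Λ + 20 * ((N : ℝ) + 1))) ≤ Real.log (1 + Λ) + 2.25 * N := by
    have h1 : 1 + (Λ + 20 * ((N : ℝ) + 1)) ≤ (1 + Λ) * (2 ^ 5 * N) := by nlinarith
    have h2 := Real.log_le_log (by positivity) h1
    rw [Real.log_mul (by positivity) (by positivity), Real.log_mul (by positivity) (by positivity),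
      Real.log_pow] at h2
    have h3 := Real.log_two_lt_d9
    have h4 := Real.log_le_sub_one_of_pos (show (0 : ℝ) < N by linarith)
    push_cast at h2
    linarith
  have hx : Real.logb 2 (1 + (Λ + 20 * ((N : ℝ) + 1))) ≤
      1.4428 * Real.log (1 + Λ) + 3.2463 * N := by
    unfold Real.logb
    have h2 := Real.log_two_gt_d9
    rw [div_le_iff₀ (by linarith)]
    nlinarith
  have hx0 : 0 ≤ Real.logb 2 (1 + (Λ + 20 * ((N : ℝ) + 1))) :=
    Real.logb_nonneg (by norm_num) (by linarith)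
  unfold M1 Cb
  set n : ℝ := (N : ℝ) with hn
  set x := Real.logb 2 (1 + (Λ + 20 * (n + 1)))
  set l := Real.log (1 + Λ)
  have e1 : 16 * (n + 1) * (20 * (n + 1)) + 3 * (20 * (n + 1)) * n * (n + 1) ≤ 495 * n ^ 3 := by
    nlinarith [sq_nonneg (n - 2), mul_nonneg (by linarith : (0:ℝ) ≤ n - 2) (by linarith : (0:ℝ) ≤ n),
      mul_nonneg (mul_nonneg (by linarith : (0:ℝ) ≤ n - 2) (by linarith : (0:ℝ) ≤ n)) (by linarith : (0:ℝ) ≤ n)]
  have e2 : 2 * (20 * (n + 1)) * n + 2 * (160 * (n + 1) ^ 2) ≤ 195 * n ^ 4 := by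
    nlinarith [sq_nonneg (n - 2), mul_nonneg (by linarith : (0:ℝ) ≤ n - 2) (by linarith : (0:ℝ) ≤ n),
      mul_nonneg (mul_nonneg (by linarith : (0:ℝ) ≤ n - 2) (by linarith : (0:ℝ) ≤ n)) (by linarith : (0:ℝ) ≤ n),
      mul_nonneg (mul_nonneg (mul_nonneg (by linarith : (0:ℝ) ≤ n - 2) (by linarith : (0:ℝ) ≤ n)) (by linarith : (0:ℝ) ≤ n)) (by linarith : (0:ℝ) ≤ n)]
  have e3 : n * ((x + 1) * (16 * (n + 1) * (20 * (n + 1)) + 3 * (20 * (n + 1)) * n * (n + 1))) ≤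
      n * ((1.4428 * l + 3.2463 * n + 1) * (495 * n ^ 3)) := by
    apply mul_le_mul_of_nonneg_left _ (by linarith)
    apply mul_le_mul (by linarith) e1 (by positivity) (by positivity)
  have e4 : 2 * (n ^ 4 * l) ≤ n ^ 5 * l := by
    have : n ^ 5 * l = n * (n ^ 4 * l) := by ring
    rw [this]
    exact mul_le_mul_of_nonneg_right hN2 (by positivity)
  have e5 : 2 * n ^ 4 ≤ n ^ 5 := by
    have : n ^ 5 = n * n ^ 4 := by ring
    rw [this]
    exact mul_le_mul_of_nonneg_right hN2 (by positivity)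
  have e6 : 0 ≤ n ^ 4 * l := by positivity
  have e7 : n * ((1.4428 * l + 3.2463 * n + 1) * (495 * n ^ 3)) =
      714.186 * (n ^ 4 * l) + 1606.9185 * n ^ 5 + 495 * n ^ 4 := by ring
  have e8 : 2000 * n ^ 5 * (1 + l) = 2000 * n ^ 5 + 2000 * (n ^ 5 * l) := by ring
  rw [e8]
  rw [e7] at e3
  have e9 : 0 ≤ n ^ 5 * l := by positivity
  have e10 : 0 ≤ n ^ 5 := by positivity
  linarith

theorem main_window {N : ℕ} (hN : 2 ≤ N) {T : ℂ[X]} (hT : T.natDegree = N) (hexc : ¬ ExcT T)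
    {K : ℝ} (hK : 0 ≤ K) :
    volume {s : ℝ | (0 ≤ s ∧ s ≤ K) ∧
      ∃ u : ℂ, ‖u‖ = 1 ∧ ¬ Hyp (C ((Real.exp s : ℝ) * u) * T)} ≤
      ENNReal.ofReal (1000 * (N : ℝ) ^ 5 * (1 + Real.log (1 + K))) := by
  have hT0 : T ≠ 0 := by
    rintro rfl
    rw [natDegree_zero] at hT
    omega
  obtain ⟨m, k, hm, -, h⟩ := exists_Tz T
  have hcard := card_Tz hT0 h
  rw [hT] at hcard
  set w := Real.log ‖T.leadingCoeff‖ with hw
  have h1 := reduce hT0 h {s : ℝ | w ≤ s ∧ s ≤ w + K}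
  have h2 := union_bound (k := k) (z := fun i : m => (i : ℂ)) (fun i => hm _ Multiset.coe_mem)
    (by omega) (fun he => hexc (exc_of hT0 hm h he)) {s : ℝ | w ≤ s ∧ s ≤ w + K} _
    (fun q => vol_bad q w K hK)
  have hNN : NN m k = (N : ℝ) := by
    unfold NN
    exact_mod_cast hcard
  rw [hNN, hcard] at h2
  have hsub : {s : ℝ | (0 ≤ s ∧ s ≤ K) ∧
      ∃ u : ℂ, ‖u‖ = 1 ∧ ¬ Hyp (C ((Real.exp s : ℝ) * u) * T)} ⊆
      {s : ℝ | s + w ∈ {s : ℝ | w ≤ s ∧ s ≤ w + K} ∧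
      ∃ u : ℂ, ‖u‖ = 1 ∧ ¬ Hyp (C ((Real.exp s : ℝ) * u) * T)} := by
    rintro s ⟨⟨h3, h4⟩, h5⟩
    exact ⟨⟨by linarith, by linarith⟩, h5⟩
  refine (measure_mono hsub).trans (h1.trans (h2.trans ?_))
  have h3 : ENNReal.ofReal (1000 * (N : ℝ) ^ 5 * (1 + Real.log (1 + K))) =
      (N : ENNReal) * ENNReal.ofReal (1000 * (N : ℝ) ^ 4 * (1 + Real.log (1 + K))) := by
    rw [← ENNReal.ofReal_natCast, ← ENNReal.ofReal_mul (Nat.cast_nonneg N)]
    congr 1; ring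
  rw [h3]
  gcongr
  exact bound_window hN hK

theorem main_all {N : ℕ} (hN : 2 ≤ N) {T : ℂ[X]} (hT : T.natDegree = N) (h0 : T.eval 0 ≠ 0)
    {Λ : ℝ} (hΛ0 : 0 ≤ Λ)
    (hΛ : ∀ x y : ℂ, T.eval x = 0 → T.eval y = 0 → ‖x‖ ≤ Real.exp Λ * ‖y‖) :
    volume {s : ℝ | ∃ u : ℂ, ‖u‖ = 1 ∧ ¬ Hyp (C ((Real.exp s : ℝ) * u) * T)} ≤
      ENNReal.ofReal (2000 * (N : ℝ) ^ 6 * (1 + Real.log (1 + Λ))) := by
  have hT0 : T ≠ 0 := by
    rintro rfl
    rw [natDegree_zero] at hT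
    omega
  obtain ⟨m, k, hm, hroot, h⟩ := exists_Tz T
  have hcard := card_Tz hT0 h
  rw [hT] at hcard
  have hk : k = 0 := by
    by_contra hk
    apply h0
    rw [h, eval_mul, Tz_eval, zero_pow hk, zero_mul, mul_zero]
  have h1 := reduce hT0 h Set.univ
  have hNN : NN m k = (N : ℝ) := by
    unfold NN
    exact_mod_cast hcard
  have hz : ∀ i : m, (i : ℂ) ≠ 0 := fun i => hm _ Multiset.coe_mem
  have hρ : ∀ i j : m, lr (fun i : m => (i : ℂ)) i ≤ lr (fun i : m => (i : ℂ)) j + Λ := by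
    intro i j
    unfold lr
    have hi := (mem_roots hT0).1 (hroot _ (Multiset.coe_mem (x := i)))
    have hj := (mem_roots hT0).1 (hroot _ (Multiset.coe_mem (x := j)))
    have h2 := hΛ _ _ hi hj
    have h3 := Real.log_le_log (norm_pos_iff.2 (hz i)) h2
    rw [Real.log_mul (Real.exp_pos _).ne' (norm_ne_zero_iff.2 (hz j)), Real.log_exp] at h3
    linarith
  have h2 := union_bound (k := k) (z := fun i : m => (i : ℂ)) hz
    (by omega) (fun he => by have := he.1; omega) Set.univ _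
    (fun q => (measure_mono (fun s hs => hs.2)).trans
      (vol_bad_all (k := k) hk (by omega) q Λ hρ))
  have hth : th m k = 20 * ((N : ℝ) + 1) := by unfold th; rw [hNN]
  rw [hNN, hcard, hth] at h2
  have hsub : {s : ℝ | ∃ u : ℂ, ‖u‖ = 1 ∧ ¬ Hyp (C ((Real.exp s : ℝ) * u) * T)} ⊆
      {s : ℝ | s + Real.log ‖T.leadingCoeff‖ ∈ Set.univ ∧
      ∃ u : ℂ, ‖u‖ = 1 ∧ ¬ Hyp (C ((Real.exp s : ℝ) * u) * T)} :=
    fun s hs => ⟨Set.mem_univ _, hs⟩
  refine (measure_mono hsub).trans (h1.trans (h2.trans ?_))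
  have h3 : ENNReal.ofReal (2000 * (N : ℝ) ^ 6 * (1 + Real.log (1 + Λ))) =
      (N : ENNReal) * ENNReal.ofReal (2000 * (N : ℝ) ^ 5 * (1 + Real.log (1 + Λ))) := by
    rw [← ENNReal.ofReal_natCast, ← ENNReal.ofReal_mul (Nat.cast_nonneg N)]
    congr 1; ring
  rw [h3]
  gcongr
  exact bound_all hN hΛ0

/-- a hyperbolic multiple in a window whose length depends only on the degree -/
theorem main_exists {N : ℕ} (hN : 2 ≤ N) {T : ℂ[X]} (hT : T.natDegree = N) (hexc : ¬ ExcT T) :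
    ∃ t : ℝ, 0 ≤ t ∧ t ≤ 10 ^ 5 * (N : ℝ) ^ 6 ∧
      ∀ u : ℂ, ‖u‖ = 1 → Hyp (C ((Real.exp t : ℝ) * u) * T) := by
  by_contra hcon
  push Not at hcon
  have hN2 : (2 : ℝ) ≤ N := by exact_mod_cast hN
  set K : ℝ := 10 ^ 5 * (N : ℝ) ^ 6 with hK
  have hK0 : 0 ≤ K := by positivity
  have h1 := main_window hN hT hexc hK0
  have hsub : Set.Icc (0 : ℝ) K ⊆ {s : ℝ | (0 ≤ s ∧ s ≤ K) ∧
      ∃ u : ℂ, ‖u‖ = 1 ∧ ¬ Hyp (C ((Real.exp s : ℝ) * u) * T)} := by
    intro s hs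
    exact ⟨hs, hcon s hs.1 hs.2⟩
  have h2 := (measure_mono hsub).trans h1
  rw [Real.volume_Icc, sub_zero] at h2
  have hlog : Real.log (1 + K) ≤ 60 * N := by
    have e1 : 1 + K ≤ (20 * (N : ℝ)) ^ 6 := by
      rw [hK, mul_pow]
      have : (1 : ℝ) ≤ (N : ℝ) ^ 6 := one_le_pow₀ (by linarith)
      nlinarith
    have e2 := Real.log_le_log (by linarith) e1
    rw [Real.log_pow] at e2
    have e3 : Real.log (20 * (N : ℝ)) ≤ 10 * N := by
      have h3 := Real.log_le_sub_one_of_pos (show (0 : ℝ) < 10 * N by linarith)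
      have h4 : Real.log (20 * (N : ℝ)) = Real.log 2 + Real.log (10 * N) := by
        rw [← Real.log_mul (by norm_num) (by positivity)]; congr 1; ring
      have h5 := Real.log_two_lt_d9
      linarith
    push_cast at e2
    linarith
  have h3 : 1000 * (N : ℝ) ^ 5 * (1 + Real.log (1 + K)) < K := by
    have e1 : 1000 * (N : ℝ) ^ 5 * (1 + Real.log (1 + K)) ≤ 1000 * (N : ℝ) ^ 5 * (1 + 60 * N) := by
      gcongr
    refine lt_of_le_of_lt e1 ?_
    rw [hK]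
    have e2 : (10 : ℝ) ^ 5 * (N : ℝ) ^ 6 = 1000 * (N : ℝ) ^ 5 * (100 * N) := by ring
    rw [e2]
    apply mul_lt_mul_of_pos_left _ (by positivity)
    linarith
  have h4 : 0 ≤ 1000 * (N : ℝ) ^ 5 * (1 + Real.log (1 + K)) := by
    have : 0 ≤ Real.log (1 + K) := Real.log_nonneg (by linarith)
    positivity
  rw [ENNReal.ofReal_le_ofReal_iff h4] at h2
  linarith

end Pool.Agent.TH639.UC
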