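import Mathlib
import Pool.Agent.TH639.LS.Lim
import Pool.Agent.W751.CD.Dyn

/-!
# Persistence of the attraction of the critical points by attracting fixed points
-/

set_option autoImplicit false

open Filter Topology MeasureTheory Polynomial

set_option linter.unusedSectionVars false

namespace Pool.Agent.TH639.UC

open Pool.Agent.W751.CD Pool.Agent.TH639.LS

variable {Θ ι : Type*} [TopologicalSpace Θ] [Fintype ι] [Nonempty ι] {e : ι → ℕ} {a : Θ → ι → ℂ}

lemma cont_eval (ha : Continuous a) :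
    Continuous (fun p : Θ × ℂ => (Pol e (a p.1)).eval p.2) := by
  simp only [Pol_eval]
  fun_prop

lemma cont_iter (ha : Continuous a) (m : ℕ) :
    Continuous (fun p : Θ × ℂ => (fun y : ℂ => (Pol e (a p.1)).eval y)^[m] p.2) := by
  induction m with
  | zero => simpa using continuous_snd
  | succ m ih =>
    simp only [Function.iterate_succ_apply']
    exact (cont_eval ha).comp (continuous_fst.prodMk ih)

lemma deriv_eval (b : ι → ℂ) (w : ℂ) :
    (derivative (Pol e b)).eval w = ∑ i, b i * ((e i : ℂ) * w ^ (e i - 1)) := by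
  simp only [Pol, derivative_sum, eval_finsetSum, derivative_C_mul, derivative_X_pow, eval_mul,
    eval_C, eval_pow, eval_X]

lemma cont_deriv (ha : Continuous a) :
    Continuous (fun p : Θ × ℂ => (derivative (Pol e (a p.1))).eval p.2) := by
  simp only [deriv_eval]
  fun_prop

/-- a locally uniform escape radius -/
lemma unif_far (ha : Continuous a) {d : ι} (hd : 2 ≤ e d) (hmax : ∀ k, k ≠ d → e k < e d)
    (θ₀ : Θ) (h0 : a θ₀ d ≠ 0) : ∃ R : ℝ, 0 < R ∧ ∀ᶠ θ in 𝓝 θ₀, ∀ w : ℂ, R ≤ ‖w‖ →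
      2 * ‖w‖ ≤ ‖(Pol e (a θ)).eval w‖ := by
  classical
  have hai : ∀ i, Continuous (fun θ => ‖a θ i‖) := fun i => by fun_prop
  obtain ⟨α, hα⟩ : ∃ α : ℝ, α = ‖a θ₀ d‖ / 2 := ⟨_, rfl⟩
  have hα0 : 0 < α := by rw [hα]; have := norm_pos_iff.2 h0; linarith
  obtain ⟨A, hA⟩ : ∃ A : ℝ, ∀ i, ‖a θ₀ i‖ < A := by
    obtain ⟨M, hM⟩ := (Set.finite_range fun i => ‖a θ₀ i‖).bddAbove
    exact ⟨M + 1, fun i => by have := hM ⟨i, rfl⟩; simp only at this; linarith⟩
  have hA0 : 0 ≤ A := (norm_nonneg _).trans (hA d).le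
  have h1 : ∀ᶠ θ in 𝓝 θ₀, α < ‖a θ d‖ :=
    ((hai d).tendsto θ₀).eventually_const_lt (by rw [hα]; linarith [norm_pos_iff.2 h0])
  have h2 : ∀ᶠ θ in 𝓝 θ₀, ∀ i, ‖a θ i‖ < A := by
    rw [Filter.eventually_all]
    intro i
    exact ((hai i).tendsto θ₀).eventually_lt_const (hA i)
  set R : ℝ := max 1 ((Fintype.card ι * A + 2) / α) with hR
  refine ⟨R, lt_of_lt_of_le one_pos (le_max_left _ _), ?_⟩
  filter_upwards [h1, h2] with θ hθ1 hθ2 w hw
  have hw1 : 1 ≤ ‖w‖ := (le_max_left _ _).trans hw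
  have hwα : Fintype.card ι * A + 2 ≤ α * ‖w‖ := by
    have : (Fintype.card ι * A + 2) / α ≤ ‖w‖ := (le_max_right _ _).trans hw
    rw [div_le_iff₀ hα0] at this
    linarith
  rw [Pol_eval, ← Finset.add_sum_erase _ _ (Finset.mem_univ d)]
  have h3 : ‖∑ i ∈ Finset.univ.erase d, a θ i * w ^ (e i)‖ ≤
      Fintype.card ι * (A * ‖w‖ ^ (e d - 1)) := by
    refine (norm_sum_le _ _).trans ?_
    have h4 : ∀ i ∈ Finset.univ.erase d, ‖a θ i * w ^ (e i)‖ ≤ A * ‖w‖ ^ (e d - 1) := by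
      intro i hi
      rw [norm_mul, norm_pow]
      apply mul_le_mul (hθ2 i).le _ (by positivity) hA0
      apply pow_le_pow_right₀ hw1
      have := hmax i (Finset.ne_of_mem_erase hi)
      omega
    refine (Finset.sum_le_card_nsmul _ _ _ h4).trans ?_
    rw [nsmul_eq_mul]
    have h5 : ((Finset.univ.erase d).card : ℝ) ≤ Fintype.card ι := by
      exact_mod_cast Finset.card_le_univ _
    apply mul_le_mul_of_nonneg_right h5
    positivity
  have h4 : α * ‖w‖ * ‖w‖ ^ (e d - 1) ≤ ‖a θ d * w ^ (e d)‖ := by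
    rw [norm_mul, norm_pow]
    have : ‖w‖ ^ (e d) = ‖w‖ * ‖w‖ ^ (e d - 1) := by
      rw [← pow_succ']; congr 1; omega
    rw [this, ← mul_assoc]
    gcongr
  have h5 := norm_sub_norm_le (a θ d * w ^ (e d)) (-(∑ i ∈ Finset.univ.erase d, a θ i * w ^ (e i)))
  rw [norm_neg, sub_neg_eq_add] at h5
  have h6 : ‖w‖ ≤ ‖w‖ ^ (e d - 1) := by
    calc ‖w‖ = ‖w‖ ^ 1 := (pow_one _).symm
      _ ≤ ‖w‖ ^ (e d - 1) := pow_le_pow_right₀ hw1 (by omega)
  have h7 : (Fintype.card ι * A + 2) * ‖w‖ ^ (e d - 1) ≤ α * ‖w‖ * ‖w‖ ^ (e d - 1) :=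
    mul_le_mul_of_nonneg_right hwα (by positivity)
  nlinarith

lemma esc_iter {P : ℂ[X]} : ∀ (m : ℕ) (w : ℂ), Esc P ((fun y : ℂ => P.eval y)^[m] w) →
    Esc P w := by
  intro m
  induction m with
  | zero => intro w h; simpa using h
  | succ m ih =>
    intro w h
    rw [Function.iterate_succ_apply] at h
    exact (ih _ h).shift

lemma att_iter {P : ℂ[X]} : ∀ (m : ℕ) (w : ℂ), Att P ((fun y : ℂ => P.eval y)^[m] w) →
    Att P w := by
  intro m
  induction m with
  | zero => intro w h; simpa using h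
  | succ m ih =>
    intro w h
    rw [Function.iterate_succ_apply] at h
    exact (ih _ h).shift

/-- an attracting disc -/
lemma att_disc {P : ℂ[X]} {x₀ : ℂ} {r q : ℝ} (hr : 0 < r) (hq : q < 1)
    (h1 : ∀ y ∈ Metric.closedBall x₀ r, ‖(derivative P).eval y‖ ≤ q)
    (h2 : ‖P.eval x₀ - x₀‖ ≤ (1 - q) * r) {w : ℂ} (hw : w ∈ Metric.closedBall x₀ r) :
    Att P w := by
  have hq0 : 0 ≤ q := (norm_nonneg _).trans (h1 x₀ (Metric.mem_closedBall_self hr.le))
  set f : ℂ → ℂ := fun y : ℂ => P.eval y with hf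
  have hder : ∀ x ∈ Metric.closedBall x₀ r, ‖deriv f x‖ ≤ q := by
    intro x hx
    have : deriv f x = (derivative P).eval x := Polynomial.deriv _
    rw [this]; exact h1 x hx
  have hdiff : ∀ x ∈ Metric.closedBall x₀ r, DifferentiableAt ℂ f x := fun x _ => P.differentiableAt
  have hlip : LipschitzOnWith (Real.toNNReal q) f (Metric.closedBall x₀ r) := by
    refine Convex.lipschitzOnWith_of_nnnorm_deriv_le (𝕜 := ℂ) hdiff ?_ (convex_closedBall _ _)
    intro x hx
    rw [← NNReal.coe_le_coe, Real.coe_toNNReal _ hq0]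
    exact hder x hx
  have hmaps : Set.MapsTo f (Metric.closedBall x₀ r) (Metric.closedBall x₀ r) := by
    intro y hy
    have h3 := hlip.dist_le_mul y hy x₀ (Metric.mem_closedBall_self hr.le)
    rw [Real.coe_toNNReal _ hq0] at h3
    rw [Metric.mem_closedBall] at hy ⊢
    have h4 : dist (f x₀) x₀ ≤ (1 - q) * r := by rw [dist_eq_norm]; exact h2
    have h5 : q * dist y x₀ ≤ q * r := mul_le_mul_of_nonneg_left hy hq0
    have := dist_triangle (f y) (f x₀) x₀
    linarith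
  have hcon : ContractingWith (Real.toNNReal q) (hmaps.restrict f _ _) := by
    refine ⟨?_, hlip.mapsToRestrict hmaps⟩
    rw [← NNReal.coe_lt_coe, Real.coe_toNNReal _ hq0]
    exact hq
  obtain ⟨y, hys, hy, hlim, -⟩ := hcon.exists_fixedPoint' Metric.isClosed_closedBall.isComplete
    hmaps hw (edist_ne_top _ _)
  exact ⟨y, hy, lt_of_le_of_lt (hder y hys) hq, hlim⟩

/-- persistence of escape and attraction -/
lemma persist (ha : Continuous a) {d : ι} (hd : 2 ≤ e d) (hmax : ∀ k, k ≠ d → e k < e d)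
    {θ₀ : Θ} (h0 : a θ₀ d ≠ 0) {w₀ : ℂ} (h : Esc (Pol e (a θ₀)) w₀ ∨ Att (Pol e (a θ₀)) w₀) :
    ∀ᶠ p : Θ × ℂ in 𝓝 (θ₀, w₀), Esc (Pol e (a p.1)) p.2 ∨ Att (Pol e (a p.1)) p.2 := by
  rcases h with h | ⟨x₀, hx1, hx2, hx3⟩
  · obtain ⟨R, hR0, hR⟩ := unif_far (e := e) ha hd hmax θ₀ h0
    obtain ⟨m, hm⟩ := (h.eventually_gt_atTop R).exists
    have h1 : ∀ᶠ p : Θ × ℂ in 𝓝 (θ₀, w₀),
        R < ‖(fun y : ℂ => (Pol e (a p.1)).eval y)^[m] p.2‖ :=
      ((cont_iter (e := e) ha m).norm.tendsto (θ₀, w₀)).eventually_const_lt hm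
    have h2 : ∀ᶠ p : Θ × ℂ in 𝓝 (θ₀, w₀), ∀ w : ℂ, R ≤ ‖w‖ →
        2 * ‖w‖ ≤ ‖(Pol e (a p.1)).eval w‖ := by
      have : Tendsto (fun p : Θ × ℂ => p.1) (𝓝 (θ₀, w₀)) (𝓝 θ₀) := continuous_fst.tendsto _
      exact this.eventually hR
    filter_upwards [h1, h2] with p hp1 hp2
    left
    exact esc_iter m _ (esc_of_large hR0 hp2 hp1.le)
  · have hder : (derivative (Pol e (a θ₀))).eval x₀ =
        deriv (fun y : ℂ => (Pol e (a θ₀)).eval y) x₀ := (Polynomial.deriv _).symm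
    obtain ⟨q, hq1, hq2⟩ := exists_between hx2
    -- a disc where the derivative is smaller than `q`
    have h1 : ∀ᶠ y in 𝓝 x₀, ‖(derivative (Pol e (a θ₀))).eval y‖ < q := by
      have hc : Continuous (fun y => ‖(derivative (Pol e (a θ₀))).eval y‖) :=
        (derivative (Pol e (a θ₀))).continuous.norm
      exact (hc.tendsto x₀).eventually_lt_const (by rw [hder]; exact hq1)
    obtain ⟨r₀, hr₀, hr₀'⟩ := Metric.eventually_nhds_iff_ball.1 h1
    set r := r₀ / 2 with hr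
    have hr0 : 0 < r := by linarith
    have hsub : Metric.closedBall x₀ r ⊆ Metric.ball x₀ r₀ := by
      intro y hy
      rw [Metric.mem_closedBall] at hy
      rw [Metric.mem_ball]
      linarith
    have h2 : ∀ᶠ θ in 𝓝 θ₀, ∀ y ∈ Metric.closedBall x₀ r,
        ‖(derivative (Pol e (a θ))).eval y‖ < q := by
      apply (isCompact_closedBall x₀ r).eventually_forall_of_forall_eventually
      intro y hy
      exact ((cont_deriv (e := e) ha).norm.tendsto (θ₀, y)).eventually_lt_const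
        (hr₀' y (hsub hy))
    have h3 : ∀ᶠ θ in 𝓝 θ₀, ‖(Pol e (a θ)).eval x₀ - x₀‖ < (1 - q) * r := by
      have hc : Continuous (fun θ => ‖(Pol e (a θ)).eval x₀ - x₀‖) :=
        (((cont_eval (e := e) ha).comp (continuous_id.prodMk continuous_const)).sub
          continuous_const).norm
      refine (hc.tendsto θ₀).eventually_lt_const ?_
      simp only [hx1, sub_self, norm_zero]
      exact mul_pos (by linarith) hr0
    have h4 : ∀ᶠ m in atTop, (fun y : ℂ => (Pol e (a θ₀)).eval y)^[m] w₀ ∈ Metric.ball x₀ r :=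
      hx3.eventually (Metric.ball_mem_nhds x₀ hr0)
    obtain ⟨m, hm⟩ := h4.exists
    have h5 : ∀ᶠ p : Θ × ℂ in 𝓝 (θ₀, w₀),
        (fun y : ℂ => (Pol e (a p.1)).eval y)^[m] p.2 ∈ Metric.ball x₀ r :=
      ((cont_iter (e := e) ha m).tendsto (θ₀, w₀)).eventually (Metric.isOpen_ball.mem_nhds hm)
    have hfst : Tendsto (fun p : Θ × ℂ => p.1) (𝓝 (θ₀, w₀)) (𝓝 θ₀) := continuous_fst.tendsto _
    filter_upwards [h5, hfst.eventually h2, hfst.eventually h3] with p hp1 hp2 hp3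
    right
    apply att_iter m
    exact att_disc hr0 hq2 (fun y hy => (hp2 y hy).le) hp3.le (Metric.ball_subset_closedBall hp1)

/-- the set of the parameters with `Hyp` is open -/
theorem isOpen_hyp (ha : Continuous a) {d : ι} (hd : 2 ≤ e d) (hmax : ∀ k, k ≠ d → e k < e d)
    (h0 : ∀ θ, a θ d ≠ 0) : IsOpen {θ : Θ | Hyp (Pol e (a θ))} := by
  rw [isOpen_iff_mem_nhds]
  intro θ₀ hθ₀
  obtain ⟨R, hR0, hR⟩ := unif_far (e := e) ha hd hmax θ₀ (h0 θ₀)
  have h1 : ∀ᶠ θ in 𝓝 θ₀, ∀ w ∈ Metric.closedBall (0 : ℂ) R,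
      (derivative (Pol e (a θ))).eval w = 0 → Esc (Pol e (a θ)) w ∨ Att (Pol e (a θ)) w := by
    apply (isCompact_closedBall (0 : ℂ) R).eventually_forall_of_forall_eventually
    intro w _
    by_cases hw : (derivative (Pol e (a θ₀))).eval w = 0
    · filter_upwards [persist (e := e) ha hd hmax (h0 θ₀) (hθ₀ w hw)] with p hp _
      exact hp
    · have := ((cont_deriv (e := e) ha).tendsto (θ₀, w)).eventually_ne hw
      filter_upwards [this] with p hp hp'
      exact absurd hp' hp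
  filter_upwards [h1, hR] with θ h2 h3
  intro c hc
  by_cases hcR : ‖c‖ ≤ R
  · exact h2 c (by rw [mem_closedBall_zero_iff]; exact hcR) hc
  · left
    exact esc_of_large hR0 h3 (not_le.1 hcR).le

end Pool.Agent.TH639.UC
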