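import Mathlib
import Pool.Agent.TH639.UC.Open
import Pool.Agent.TH639.UC.Main

/-!
# The proportion of the non-hyperbolic polynomials in a box of the logarithmic coordinates
-/

set_option autoImplicit false

open Filter Topology MeasureTheory Polynomial

set_option linter.unusedSectionVars false

namespace Pool.Agent.TH639.UC

open Pool.Agent.W751.CD Pool.Agent.TH639.LS

variable {ι : Type*} [Fintype ι] [Nonempty ι] {e : ι → ℕ}

lemma Pol_natDegree (he : Function.Injective e) {b : ι → ℂ} {d : ι}
    (hmax : ∀ k, k ≠ d → e k < e d) (hb : b d ≠ 0) : (Pol e b).natDegree = e d := by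
  classical
  apply natDegree_eq_of_le_of_coeff_ne_zero
  · unfold Pol
    apply natDegree_sum_le_of_forall_le
    intro i _
    refine (natDegree_C_mul_X_pow_le _ _).trans ?_
    by_cases h : i = d
    · rw [h]
    · exact (hmax i h).le
  · unfold Pol
    rw [finsetSum_coeff, Finset.sum_eq_single d]
    · rw [coeff_C_mul, coeff_X_pow, if_pos rfl, mul_one]; exact hb
    · intro i _ hi
      rw [coeff_C_mul, coeff_X_pow, if_neg (fun h => hi (he h.symm)), mul_zero]
    · intro h; exact absurd (Finset.mem_univ d) h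

lemma Pol_not_exc (he : Function.Injective e) (h01 : (∃ i, e i = 0) ∨ ∀ i, e i ≠ 1) {b : ι → ℂ}
    (hb : ∀ i, b i ≠ 0) : ¬ ExcT (Pol e b) := by
  rintro ⟨h1, h2, -⟩
  rcases h01 with ⟨i, hi⟩ | h
  · apply hb i
    rw [Pol_eval, Finset.sum_eq_single i] at h1
    · rwa [hi, pow_zero, mul_one] at h1
    · intro j _ hj
      have : e j ≠ 0 := fun h => hj (he (by rw [h, hi]))
      rw [zero_pow this, mul_zero]
    · intro h; exact absurd (Finset.mem_univ i) h
  · apply h2
    rw [deriv_eval]
    refine Finset.sum_eq_zero fun i _ => ?_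
    rcases Nat.eq_zero_or_pos (e i) with h3 | h3
    · rw [h3]; simp
    · have : e i - 1 ≠ 0 := by have := h i; omega
      rw [zero_pow this]; simp

/-- the coefficients with the logarithms `x i` of the moduli and the arguments `u i` -/
noncomputable def cf (u : ι → ℂ) (x : ι → ℝ) : ι → ℂ := fun i => ((Real.exp (x i) : ℝ) : ℂ) * u i

lemma cont_cf (u : ι → ℂ) : Continuous (cf u) := by
  unfold cf
  fun_prop

lemma cf_ne {u : ι → ℂ} (hu : ∀ i, ‖u i‖ = 1) (x : ι → ℝ) (i : ι) : cf u x i ≠ 0 := by
  unfold cf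
  apply mul_ne_zero
  · exact_mod_cast (Real.exp_pos _).ne'
  · rw [← norm_ne_zero_iff, hu i]; exact one_ne_zero

lemma Pol_shift (u : ι → ℂ) (x : ι → ℝ) (s : ℝ) :
    Pol e (cf u (fun i => x i + s)) = C ((Real.exp s : ℝ) * (1 : ℂ)) * Pol e (cf u x) := by
  unfold Pol cf
  rw [Finset.mul_sum]
  refine Finset.sum_congr rfl fun i _ => ?_
  rw [← mul_assoc, ← C_mul]
  congr 2
  rw [Real.exp_add]
  push_cast
  ring

theorem box (he : Function.Injective e) {d : ι} (hd : 2 ≤ e d) (hmax : ∀ k, k ≠ d → e k < e d)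
    (h01 : (∃ i, e i = 0) ∨ ∀ i, e i ≠ 1) {u : ι → ℂ} (hu : ∀ i, ‖u i‖ = 1) {R : ℝ}
    (hR : 0 < R) :
    volume {x : ι → ℝ | (∀ i, |x i| ≤ R) ∧ ¬ Hyp (Pol e (cf u x))} ≤
      ENNReal.ofReal (2 ^ (Fintype.card ι) *
        (1000 * (e d : ℝ) ^ 5 * (1 + Real.log (1 + R))) / R) *
        volume {x : ι → ℝ | ∀ i, |x i| ≤ R} := by
  classical
  set B : Set (ι → ℝ) := {x | (∀ i, |x i| ≤ R) ∧ ¬ Hyp (Pol e (cf u x))} with hB
  have hclosed : IsClosed {x : ι → ℝ | ¬ Hyp (Pol e (cf u x))} := by
    rw [← isOpen_compl_iff]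
    have := isOpen_hyp (e := e) (cont_cf u) hd hmax (fun x => cf_ne hu x d)
    convert this using 1
    ext x; simp
  have hboxc : ∀ r : ℝ, {x : ι → ℝ | ∀ i, |x i| ≤ r} = Set.Icc (fun _ => -r) (fun _ => r) := by
    intro r
    ext x
    rw [Set.mem_Icc, Pi.le_def, Pi.le_def]
    simp only [Set.mem_ofPred_eq, abs_le]
    exact ⟨fun h => ⟨fun i => (h i).1, fun i => (h i).2⟩, fun h i => ⟨h.1 i, h.2 i⟩⟩
  have hvolbox : ∀ r : ℝ, 0 ≤ r → volume {x : ι → ℝ | ∀ i, |x i| ≤ r} =
      ENNReal.ofReal ((2 * r) ^ (Fintype.card ι)) := by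
    intro r hr
    rw [hboxc, Real.volume_Icc_pi]
    rw [Finset.prod_const, Finset.card_univ, ← ENNReal.ofReal_pow (by linarith)]
    congr 2; ring
  have hBm : IsClosed B := by
    have h1 : IsClosed {x : ι → ℝ | ∀ i, |x i| ≤ R} := by rw [hboxc]; exact isClosed_Icc
    exact h1.inter hclosed
  -- the set in the product
  set S : Set (ℝ × (ι → ℝ)) := {p | (0 ≤ p.1 ∧ p.1 ≤ R) ∧ (fun i => p.2 i + p.1) ∈ B} with hS
  have hSm : MeasurableSet S := by
    apply IsClosed.measurableSet
    have h1 : IsClosed {p : ℝ × (ι → ℝ) | 0 ≤ p.1 ∧ p.1 ≤ R} :=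
      (isClosed_le continuous_const continuous_fst).inter
        (isClosed_le continuous_fst continuous_const)
    have h2 : Continuous (fun p : ℝ × (ι → ℝ) => (fun i => p.2 i + p.1 : ι → ℝ)) := by fun_prop
    exact h1.inter (hBm.preimage h2)
  have e1 : ((volume : Measure ℝ).prod (volume : Measure (ι → ℝ))) S =
      ENNReal.ofReal R * volume B := by
    rw [Measure.prod_apply hSm]
    have h1 : ∀ s : ℝ, volume (Prod.mk s ⁻¹' S) =
        (Set.Icc (0 : ℝ) R).indicator (fun _ => volume B) s := by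
      intro s
      by_cases hs : s ∈ Set.Icc (0 : ℝ) R
      · rw [Set.indicator_of_mem hs]
        have : Prod.mk s ⁻¹' S = (fun x : ι → ℝ => x + fun _ => s) ⁻¹' B := by
          ext x
          constructor
          · intro h; exact h.2
          · intro h; exact ⟨hs, h⟩
        rw [this, measure_preimage_add_right]
      · rw [Set.indicator_of_notMem hs]
        have : Prod.mk s ⁻¹' S = ∅ := by
          ext x
          constructor
          · intro h; exact absurd h.1 hs
          · intro h; exact absurd h (Set.notMem_empty _)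
        rw [this, measure_empty]
    simp only [h1]
    rw [lintegral_indicator measurableSet_Icc, setLIntegral_const, Real.volume_Icc, sub_zero,
      mul_comm]
  have e2 : ((volume : Measure ℝ).prod (volume : Measure (ι → ℝ))) S ≤
      ENNReal.ofReal (1000 * (e d : ℝ) ^ 5 * (1 + Real.log (1 + R))) *
        volume {x : ι → ℝ | ∀ i, |x i| ≤ 2 * R} := by
    rw [Measure.prod_apply_symm hSm]
    have hboxm : MeasurableSet {x : ι → ℝ | ∀ i, |x i| ≤ 2 * R} := by
      rw [hboxc]; exact measurableSet_Icc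
    have h1 : ∀ x : ι → ℝ, volume ((fun s : ℝ => (s, x)) ⁻¹' S) ≤
        {x : ι → ℝ | ∀ i, |x i| ≤ 2 * R}.indicator
          (fun _ => ENNReal.ofReal (1000 * (e d : ℝ) ^ 5 * (1 + Real.log (1 + R)))) x := by
      intro x
      by_cases hx : x ∈ {x : ι → ℝ | ∀ i, |x i| ≤ 2 * R}
      · rw [Set.indicator_of_mem hx]
        refine le_trans (measure_mono ?_) (main_window hd (Pol_natDegree he hmax (cf_ne hu x d))
          (Pol_not_exc he h01 (cf_ne hu x)) hR.le)
        rintro s ⟨hs1, -, hs2⟩
        refine ⟨hs1, 1, norm_one, ?_⟩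
        rw [← Pol_shift]
        exact hs2
      · rw [Set.indicator_of_notMem hx]
        apply le_of_eq
        have : (fun s : ℝ => (s, x)) ⁻¹' S = ∅ := by
          ext s
          constructor
          · rintro ⟨hs1, hs2, -⟩
            exfalso
            apply hx
            intro i
            have h2 := hs2 i
            simp only at h2
            simp only at hs1
            rw [abs_le] at h2 ⊢
            constructor <;> linarith [h2.1, h2.2, hs1.1, hs1.2]
          · intro h; exact absurd h (Set.notMem_empty _)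
        rw [this, measure_empty]
    refine (lintegral_mono h1).trans ?_
    rw [lintegral_indicator hboxm, setLIntegral_const]
  rw [e1] at e2
  rw [hvolbox _ (by linarith)] at e2
  rw [hvolbox _ hR.le]
  have hl : 0 ≤ Real.log (1 + R) := Real.log_nonneg (by linarith)
  have h3 : ENNReal.ofReal R * volume B ≤ ENNReal.ofReal R *
      (ENNReal.ofReal (2 ^ (Fintype.card ι) *
        (1000 * (e d : ℝ) ^ 5 * (1 + Real.log (1 + R))) / R) *
        ENNReal.ofReal ((2 * R) ^ (Fintype.card ι))) := by
    refine e2.trans (le_of_eq ?_)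
    rw [← ENNReal.ofReal_mul (by positivity), ← ENNReal.ofReal_mul (by positivity),
      ← ENNReal.ofReal_mul (by positivity)]
    congr 1
    have : (2 * (2 * R)) ^ (Fintype.card ι) =
        2 ^ (Fintype.card ι) * (2 * R) ^ (Fintype.card ι) := mul_pow _ _ _
    rw [this]
    field_simp
  rwa [ENNReal.mul_le_mul_iff_right (by rw [Ne, ENNReal.ofReal_eq_zero, not_le]; exact hR)
    ENNReal.ofReal_ne_top] at h3

end Pool.Agent.TH639.UC
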